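import Pool.Agent.LibPR9.Defs

set_option autoImplicit false
open Filter Topology Polynomial Finset
open Pool.Agent.LibTri77 Pool.Agent.LibTri68P

namespace PR9

private noncomputable def A1_s : ℂ → ℂ := dslope (fun z : ℂ => Complex.sin (Real.pi * z)) 0

private theorem A1_ne {z : ℂ} (hz : z ≠ 0) : A1_s z = Complex.sin (Real.pi * z) / z := by
  rw [A1_s, dslope_of_ne _ hz, slope_def_field]
  simp

private theorem A1_zero : A1_s 0 = Real.pi := by
  rw [A1_s, dslope_same]
  have h : HasDerivAt (fun z : ℂ => Complex.sin (Real.pi * z))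
      (Complex.cos (Real.pi * 0) * (Real.pi * 1)) 0 :=
    ((hasDerivAt_id (0 : ℂ)).const_mul (Real.pi : ℂ)).csin
  rw [h.deriv]
  simp

private theorem A1_diff : Differentiable ℂ A1_s := by
  have h : DifferentiableOn ℂ (fun z : ℂ => Complex.sin (Real.pi * z)) Set.univ :=
    (Complex.differentiable_sin.comp
      ((differentiable_id (𝕜 := ℂ) (E := ℂ)).const_mul (Real.pi : ℂ))).differentiableOn
  have h2 := (Complex.differentiableOn_dslope (c := 0) Filter.univ_mem).2 h
  exact differentiableOn_univ.1 h2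

private theorem A1_nz {z : ℂ} (hz : ‖z‖ < 1) : A1_s z ≠ 0 := by
  by_cases h0 : z = 0
  · rw [h0, A1_zero]
    exact_mod_cast Real.pi_ne_zero
  · rw [A1_ne h0]
    apply div_ne_zero _ h0
    intro h
    obtain ⟨k, hk⟩ := Complex.sin_eq_zero_iff.1 h
    have hpi : (Real.pi : ℂ) ≠ 0 := by exact_mod_cast Real.pi_ne_zero
    have hzk : z = k := by
      apply mul_left_cancel₀ hpi
      rw [hk, mul_comm]
    rw [hzk, Complex.norm_intCast] at hz
    have hk1 : |k| < 1 := by exact_mod_cast hz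
    have hk0 : k = 0 := Int.abs_lt_one_iff.1 hk1
    rw [hk0] at hzk
    exact h0 (by simpa using hzk)

private theorem A1_der {x : ℝ} (hx : x ≠ 0) : deriv A1_s (x : ℂ) =
    (Complex.cos (Real.pi * x) * Real.pi * x - Complex.sin (Real.pi * x)) / (x : ℂ) ^ 2 := by
  have hx' : (x : ℂ) ≠ 0 := by exact_mod_cast hx
  have h1 : HasDerivAt (fun z : ℂ => Complex.sin (Real.pi * z) / z)
      ((Complex.cos (Real.pi * x) * (Real.pi * 1) * x - Complex.sin (Real.pi * x) * 1) /
        (x : ℂ) ^ 2) (x : ℂ) :=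
    (((hasDerivAt_id (x : ℂ)).const_mul (Real.pi : ℂ)).csin).div (hasDerivAt_id (x : ℂ)) hx'
  have h2 : A1_s =ᶠ[nhds (x : ℂ)] fun z : ℂ => Complex.sin (Real.pi * z) / z := by
    filter_upwards [isOpen_ne.mem_nhds hx'] with z hz
    exact A1_ne hz
  rw [h2.deriv_eq, h1.deriv, mul_one, mul_one]

/-- ROW A1. `log (2 sin πx) - log x` is analytic in the unit disc.
PLAN. `s z = dslope (fun z => Complex.sin (π z)) 0 z` is entire (`DifferentiableOn` of `dslope`, or the removable
singularity theorem), `s z = sin (π z) / z` for `z ≠ 0`, `s 0 = π`; no zeros in the unit disc (`Complex.sin_eq_zero_iff`).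
`deriv s / s` is holomorphic on the ball, so it has a primitive `ℓ` there (`DifferentiableOn.isExactOn_ball`,
Mathlib.Analysis.Complex.HasPrimitives). For real `x` in `(0,1)` the derivative of `log (2 sin πx) - log x` is
`π cos πx / sin πx - 1/x = (deriv s / s) x`; so `(log (2 sin πx) - log x : ℂ) - ℓ x` has derivative `0` on `(0,1)`, a constant `c0`
(`is_const_of_deriv_eq_zero` on an interval: `Convex.is_const_of_fderivWithin_eq_zero` or mean value). `g = ℓ + c0`. -/
theorem log_sin : ∃ g : ℂ → ℂ, DifferentiableOn ℂ g (Metric.ball 0 1) ∧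
    ∀ x : ℝ, 0 < x → x < 1 →
      ((Real.log (2 * Real.sin (Real.pi * x)) : ℝ) : ℂ) = ((Real.log x : ℝ) : ℂ) + g x := by
  have hq : DifferentiableOn ℂ (fun z => deriv A1_s z / A1_s z) (Metric.ball 0 1) := by
    intro z hz
    have hz' : ‖z‖ < 1 := by simpa using hz
    have h1 : Differentiable ℂ (deriv A1_s) := by
      have := (A1_diff.differentiableOn (s := Set.univ)).deriv isOpen_univ
      exact differentiableOn_univ.1 this
    exact ((h1 z).div (A1_diff z) (A1_nz hz')).differentiableWithinAt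
  obtain ⟨l, hl⟩ := hq.isExactOn_ball
  have hball : ∀ x : ℝ, 0 < x → x < 1 → (x : ℂ) ∈ Metric.ball (0 : ℂ) 1 := by
    intro x h0 h1
    rw [mem_ball_zero_iff, Complex.norm_real, Real.norm_eq_abs, abs_of_pos h0]
    exact h1
  have hsin : ∀ x : ℝ, 0 < x → x < 1 → 0 < Real.sin (Real.pi * x) := by
    intro x h0 h1
    apply Real.sin_pos_of_pos_of_lt_pi
    · exact mul_pos Real.pi_pos h0
    · calc Real.pi * x < Real.pi * 1 := mul_lt_mul_of_pos_left h1 Real.pi_pos
        _ = Real.pi := mul_one _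
  -- derivative of the difference
  have hder : ∀ x : ℝ, x ∈ Set.Ioo (0 : ℝ) 1 → HasDerivAt (fun x : ℝ =>
      ((Real.log (2 * Real.sin (Real.pi * x)) - Real.log x : ℝ) : ℂ) - l (x : ℂ)) 0 x := by
    rintro x ⟨h0, h1⟩
    have hs := hsin x h0 h1
    have e1 : HasDerivAt (fun x : ℝ => Real.log (2 * Real.sin (Real.pi * x)) - Real.log x)
        (2 * (Real.cos (Real.pi * x) * (Real.pi * 1)) / (2 * Real.sin (Real.pi * x)) - x⁻¹) x := by
      have e2 : HasDerivAt (fun x : ℝ => 2 * Real.sin (Real.pi * x))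
          (2 * (Real.cos (Real.pi * x) * (Real.pi * 1))) x :=
        (((hasDerivAt_id x).const_mul Real.pi).sin).const_mul 2
      exact (e2.log (by positivity)).sub (Real.hasDerivAt_log h0.ne')
    have e3 := e1.ofReal_comp
    have e4 : HasDerivAt (fun x : ℝ => l (x : ℂ)) (deriv A1_s (x : ℂ) / A1_s (x : ℂ)) x :=
      (hl _ (hball x h0 h1)).comp_ofReal
    have e5 := e3.sub e4
    have hx' : (x : ℂ) ≠ 0 := by exact_mod_cast h0.ne'
    have hs' : Complex.sin (Real.pi * x) ≠ 0 := by
      rw [← Complex.ofReal_mul, ← Complex.ofReal_sin]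
      exact_mod_cast hs.ne'
    have e6 : (((2 * (Real.cos (Real.pi * x) * (Real.pi * 1)) /
        (2 * Real.sin (Real.pi * x)) - x⁻¹ : ℝ)) : ℂ) - deriv A1_s (x : ℂ) / A1_s (x : ℂ) = 0 := by
      rw [A1_der h0.ne', A1_ne hx']
      push_cast
      field_simp
      ring
    rw [e6] at e5
    exact e5
  have hconst : ∀ x : ℝ, x ∈ Set.Ioo (0 : ℝ) 1 →
      ((Real.log (2 * Real.sin (Real.pi * x)) - Real.log x : ℝ) : ℂ) - l (x : ℂ) =
      ((Real.log (2 * Real.sin (Real.pi * (1 / 2 : ℝ))) - Real.log (1 / 2 : ℝ) : ℝ) : ℂ) -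
        l (((1 / 2 : ℝ)) : ℂ) := by
    intro x hx
    exact isOpen_Ioo.is_const_of_deriv_eq_zero (𝕜 := ℝ)
      (f := fun x : ℝ => ((Real.log (2 * Real.sin (Real.pi * x)) - Real.log x : ℝ) : ℂ) -
        l (x : ℂ)) isPreconnected_Ioo
      (fun y hy => (hder y hy).differentiableAt.differentiableWithinAt)
      (fun y hy => (hder y hy).deriv) hx (by norm_num)
  refine ⟨fun z => l z + (((Real.log (2 * Real.sin (Real.pi * (1 / 2 : ℝ))) -
      Real.log (1 / 2 : ℝ) : ℝ) : ℂ) - l (((1 / 2 : ℝ)) : ℂ)), ?_, ?_⟩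
  · intro z hz
    exact ((hl z hz).differentiableAt.add_const _).differentiableWithinAt
  · intro x h0 h1
    have := hconst x ⟨h0, h1⟩
    rw [Complex.ofReal_sub] at this
    linear_combination this

end PR9
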