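import Pool.Agent.LibPR9.A1

set_option autoImplicit false
open Filter Topology Polynomial Finset
open Pool.Agent.LibTri77 Pool.Agent.LibTri68P

namespace PR9

private theorem A2_step {F F' : ℝ → ℝ} {c : ℝ} {m : ℕ} {g : ℂ → ℂ}
    (hF : ∀ x : ℝ, 0 < x → x < 1 → HasDerivAt F (F' x) x)
    (hF' : ∀ x : ℝ, 0 < x → x < 1 →
      ((F' x : ℝ) : ℂ) = (c : ℂ) * (x : ℂ) ^ m * ((Real.log x : ℝ) : ℂ) + g x)
    (hg : DifferentiableOn ℂ g (Metric.ball 0 1)) :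
    ∃ h : ℂ → ℂ, DifferentiableOn ℂ h (Metric.ball 0 1) ∧ ∀ x : ℝ, 0 < x → x < 1 →
      ((F x : ℝ) : ℂ) = ((c / (m + 1) : ℝ) : ℂ) * (x : ℂ) ^ (m + 1) * ((Real.log x : ℝ) : ℂ) + h x := by
  obtain ⟨G, hG⟩ := hg.isExactOn_ball
  have hm : ((m : ℂ) + 1) ≠ 0 := by exact_mod_cast Nat.succ_ne_zero m
  have hball : ∀ x : ℝ, 0 < x → x < 1 → (x : ℂ) ∈ Metric.ball (0 : ℂ) 1 := by
    intro x h0 h1
    rw [Metric.mem_ball, dist_zero_right, Complex.norm_real, Real.norm_eq_abs, abs_of_pos h0]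
    exact h1
  obtain ⟨D, hD⟩ : ∃ D : ℝ → ℂ, D = fun x : ℝ => ((F x : ℝ) : ℂ) -
      (((c / (m + 1) : ℝ) : ℂ) * ((x : ℂ) ^ (m + 1) * ((Real.log x : ℝ) : ℂ)) +
        (-((c : ℂ) / ((m : ℂ) + 1) ^ 2) * (x : ℂ) ^ (m + 1) + G x)) := ⟨_, rfl⟩
  have hder : ∀ x : ℝ, 0 < x → x < 1 → HasDerivAt D 0 x := by
    intro x h0 h1
    have d1 : HasDerivAt (fun x : ℝ => ((F x : ℝ) : ℂ)) ((F' x : ℝ) : ℂ) x := (hF x h0 h1).ofReal_comp
    have d2 : HasDerivAt (fun x : ℝ => (x : ℂ) ^ (m + 1)) (((m + 1 : ℕ) : ℂ) * (x : ℂ) ^ m) x := by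
      have := (hasDerivAt_pow (m + 1) (x : ℂ)).comp_ofReal
      simpa using this
    have d3 : HasDerivAt (fun x : ℝ => ((Real.log x : ℝ) : ℂ)) ((x⁻¹ : ℝ) : ℂ) x :=
      (Real.hasDerivAt_log h0.ne').ofReal_comp
    have d4 : HasDerivAt (fun x : ℝ => G x) (g x) x := (hG (x : ℂ) (hball x h0 h1)).comp_ofReal
    have d5 := d1.sub (((d2.mul d3).const_mul (((c / (m + 1) : ℝ) : ℂ))).add
      ((d2.const_mul (-((c : ℂ) / ((m : ℂ) + 1) ^ 2))).add d4))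
    rw [hD]
    refine d5.congr_deriv ?_
    rw [hF' x h0 h1]
    have hx : (x : ℂ) ≠ 0 := by exact_mod_cast h0.ne'
    have hxm : (x : ℂ) ^ (m + 1) * (x : ℂ)⁻¹ = (x : ℂ) ^ m := by
      rw [pow_succ, mul_assoc, mul_inv_cancel₀ hx, mul_one]
    push_cast
    rw [hxm]
    field_simp
    ring
  have hconst : ∀ x : ℝ, 0 < x → x < 1 → D x = D (1 / 2) := by
    intro x h0 h1
    refine isOpen_Ioo.is_const_of_deriv_eq_zero (s := Set.Ioo (0 : ℝ) 1) isPreconnected_Ioo ?_ ?_ ⟨h0, h1⟩ ⟨by norm_num, by norm_num⟩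
    · intro y hy
      exact (hder y hy.1 hy.2).differentiableAt.differentiableWithinAt
    · intro y hy
      exact (hder y hy.1 hy.2).deriv
  refine ⟨fun z => (-((c : ℂ) / ((m : ℂ) + 1) ^ 2) * z ^ (m + 1) + G z) + D (1 / 2), ?_, ?_⟩
  · refine DifferentiableOn.add_const _ (DifferentiableOn.add ?_ ?_)
    · exact ((differentiable_id.pow (m + 1)).const_mul _).differentiableOn
    · intro z hz
      exact (hG z hz).differentiableAt.differentiableWithinAt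
  · intro x h0 h1
    show ((F x : ℝ) : ℂ) = ((c / (m + 1) : ℝ) : ℂ) * (x : ℂ) ^ (m + 1) * ((Real.log x : ℝ) : ℂ) +
      ((-((c : ℂ) / ((m : ℂ) + 1) ^ 2) * (x : ℂ) ^ (m + 1) + G x) + D (1 / 2))
    rw [← hconst x h0 h1, hD]
    ring

private theorem A2_all (k : ℕ) : ∃ h : ℂ → ℂ, DifferentiableOn ℂ h (Metric.ball 0 1) ∧
    ∀ x : ℝ, 0 < x → x < 1 → ((U (k + 2) x : ℝ) : ℂ) =
      ((-(2 * Real.pi) ^ (k + 1) / (((k + 1).factorial : ℕ) : ℝ) : ℝ) : ℂ) * (x : ℂ) ^ (k + 1) *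
        ((Real.log x : ℝ) : ℂ) + h x := by
  induction k with
  | zero =>
    obtain ⟨g, hg, hgx⟩ := log_sin
    obtain ⟨h, hh, hx⟩ := A2_step (F := U 2) (F' := gl) (c := -(2 * Real.pi)) (m := 0)
      (g := fun z => ((-(2 * Real.pi) : ℝ) : ℂ) * g z) U2_deriv (fun x h0 h1 => by
        unfold gl
        rw [Complex.ofReal_mul, hgx x h0 h1]
        ring) (hg.const_mul _)
    refine ⟨h, hh, fun x h0 h1 => ?_⟩
    rw [zero_add, zero_add, hx x h0 h1]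
    congr 3
    simp
  | succ k ih =>
    obtain ⟨g, hg, hgx⟩ := ih
    obtain ⟨h, hh, hx⟩ := A2_step (F := U (k + 2 + 1)) (F' := fun x => 2 * Real.pi * U (k + 2) x)
      (c := 2 * Real.pi * (-(2 * Real.pi) ^ (k + 1) / (((k + 1).factorial : ℕ) : ℝ))) (m := k + 1)
      (g := fun z => ((2 * Real.pi : ℝ) : ℂ) * g z) (fun x _ _ => U_deriv (k + 2) (by omega) x)
      (fun x h0 h1 => by
        rw [Complex.ofReal_mul, hgx x h0 h1]
        push_cast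
        ring) (hg.const_mul _)
    refine ⟨h, hh, fun x h0 h1 => ?_⟩
    rw [show k + 1 + 2 = k + 2 + 1 by ring, hx x h0 h1]
    congr 4
    rw [Nat.factorial_succ (k + 1)]
    push_cast
    have h2 : ((k + 1).factorial : ℝ) ≠ 0 := by positivity
    field_simp
    ring

/-- ROW A2. Continuation of `U K / π^K`.
PLAN. Induction on `K` for the statement `S K`: there is `h` holomorphic on the ball with
`(U K x : ℂ) = -(2π)^(K-1)/(K-1)! x^(K-1) log x + h x` on `(0,1)` (then divide by `π^K`). `K = 2`: `U2_deriv` (LibTri77/Base.lean):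
`U 2` has derivative `gl x = -(2π) log (2 sin πx)` on `(0,1)`; with `g` of row A1 and a primitive `G` of `g` on the ball
(`DifferentiableOn.isExactOn_ball`): `U 2 x` and `-2π (x log x - x) - 2π G x` have the same derivative on `(0,1)`, so they differ
by a constant. Step: `U_deriv` (LibTri77/Abel.lean): `U (K+1)' = 2π U K`; `x^(K-1) log x` has the primitive
`x^K log x / K - x^K / K^2`. -/
theorem exists_cont (K : ℕ) (hK : 2 ≤ K) : ∃ h : ℂ → ℂ, Cont K h := by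
  obtain ⟨k, rfl⟩ : ∃ k, K = k + 2 := ⟨K - 2, by omega⟩
  obtain ⟨h, hh, hx⟩ := A2_all k
  refine ⟨fun z => h z / ((Real.pi ^ (k + 2) : ℝ) : ℂ), hh.div_const _, fun x h0 h1 => ?_⟩
  have hpi : (Real.pi : ℂ) ≠ 0 := by exact_mod_cast Real.pi_ne_zero
  have hfac : (((k + 1).factorial : ℕ) : ℂ) ≠ 0 := by exact_mod_cast (Nat.factorial_ne_zero _)
  unfold fK cK
  rw [Complex.ofReal_div, hx x h0 h1]
  have e1 : k + 2 - 1 = k + 1 := rfl
  rw [e1]
  push_cast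
  field_simp

end PR9
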