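import Pool.Agent.LibPR9.Defs

set_option autoImplicit false
open Filter Topology Polynomial Finset
open Pool.Agent.LibTri77 Pool.Agent.LibTri68P

namespace PR9

theorem A3_norm_exp (u : ℂ) (hu : u.re ≤ -1 / 10) : ‖Complex.exp u‖ ≤ Real.exp (-1 / 10) := by
  rw [Complex.norm_exp]
  exact Real.exp_le_exp.2 hu

theorem A3_exp_lt : Real.exp (-1 / 10) < 1 := by
  rw [← Real.exp_zero]
  exact Real.exp_lt_exp.2 (by norm_num)

/-- ROW A3 (easy). `‖exp u‖ ≤ exp(-1/10) < 1`: `h` is bounded on the compact ball of radius `exp(-1/10)`. -/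
theorem lg_bound (K : ℕ) (h : ℂ → ℂ) (hh : Cont K h) :
    ∃ C1 : ℝ, 1 ≤ C1 ∧ ∀ u : ℂ, u.re ≤ -1 / 10 → ‖lg K h u‖ ≤ C1 * (1 + ‖u‖) := by
  have hcont : ContinuousOn h (Metric.closedBall 0 (Real.exp (-1 / 10))) :=
    hh.diff.continuousOn.mono (Metric.closedBall_subset_ball A3_exp_lt)
  obtain ⟨M, hM⟩ := (isCompact_closedBall (0 : ℂ) (Real.exp (-1 / 10))).exists_bound_of_continuousOn
    hcont
  refine ⟨1 + |cK K| + |M|, ?_, ?_⟩
  · have h1 := abs_nonneg (cK K)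
    have h2 := abs_nonneg M
    linarith
  intro u hu
  have he := A3_norm_exp u hu
  have he1 : ‖Complex.exp u‖ ≤ 1 := he.trans A3_exp_lt.le
  have hm : Complex.exp u ∈ Metric.closedBall (0 : ℂ) (Real.exp (-1 / 10)) := by
    rw [mem_closedBall_zero_iff]
    exact he
  have hb := hM _ hm
  have hp : ‖Complex.exp u‖ ^ (K - 1) ≤ 1 := pow_le_one₀ (norm_nonneg _) he1
  have h0 : ‖(cK K : ℂ) * Complex.exp u ^ (K - 1) * u‖ ≤ |cK K| * ‖u‖ := by
    rw [norm_mul, norm_mul, norm_pow, Complex.norm_real, Real.norm_eq_abs]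
    have h3 : |cK K| * ‖Complex.exp u‖ ^ (K - 1) ≤ |cK K| :=
      mul_le_of_le_one_right (abs_nonneg _) hp
    exact mul_le_mul_of_nonneg_right h3 (norm_nonneg _)
  have h1 : ‖lg K h u‖ ≤ |cK K| * ‖u‖ + |M| := by
    unfold lg
    refine (norm_add_le _ _).trans ?_
    have := le_abs_self M
    linarith
  have h4 := norm_nonneg u
  have h5 := abs_nonneg (cK K)
  have h6 := abs_nonneg M
  have h7 : 0 ≤ |M| * ‖u‖ := mul_nonneg h6 h4
  nlinarith [h1]

/-- `lg` on the sheet number `k` over a real point (`exp (log x + 2πik) = x`). -/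
theorem lg_real (K : ℕ) (h : ℂ → ℂ) (hh : Cont K h) (x : ℝ) (h0 : 0 < x) (h1 : x < 1) (k : ℕ) :
    lg K h (((Real.log x : ℝ) : ℂ) + 2 * Real.pi * Complex.I * k) =
      ((fK K x : ℝ) : ℂ) + k * (2 * Real.pi * Complex.I * (cK K : ℂ) * (x : ℂ) ^ (K - 1)) := by
  have e1 : Complex.exp (((Real.log x : ℝ) : ℂ) + 2 * Real.pi * Complex.I * k) = (x : ℂ) := by
    rw [Complex.exp_add]
    have e2 : Complex.exp (2 * Real.pi * Complex.I * k) = 1 := by
      rw [show (2 * Real.pi * Complex.I * k : ℂ) = (k : ℂ) * (2 * Real.pi * Complex.I) by ring]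
      exact Complex.exp_nat_mul_two_pi_mul_I k
    rw [e2, mul_one, ← Complex.ofReal_exp, Real.exp_log h0]
  unfold lg
  rw [e1, hh.eq x h0 h1]
  ring

/-- `cK K ≠ 0`; and `|fK K x| ≤ 2` (`tm_bound`, `∑ 1/(n+1)^K ≤ ∑ 1/(n+1)^2 ≤ 2`, `π ≥ 1`). -/
theorem cK_ne (K : ℕ) : cK K ≠ 0 := by
  unfold cK
  have hpi := Real.pi_pos
  have h1 : (0 : ℝ) < (2 * Real.pi) ^ (K - 1) := by positivity
  have h2 : (0 : ℝ) < ((K - 1).factorial : ℝ) * Real.pi ^ K :=
    mul_pos (by exact_mod_cast Nat.factorial_pos _) (pow_pos hpi _)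
  exact div_ne_zero (neg_ne_zero.2 h1.ne') h2.ne'

theorem A3_sum_two : ∑' n : ℕ, 1 / ((n : ℝ) + 1) ^ 2 ≤ 2 := by
  have h := hasSum_zeta_two
  have h2 := (hasSum_nat_add_iff' 1).2 h
  have h3 : HasSum (fun n : ℕ => 1 / ((n : ℝ) + 1) ^ 2) (Real.pi ^ 2 / 6) := by
    have h4 : Real.pi ^ 2 / 6 - ∑ i ∈ range 1, 1 / ((i : ℕ) : ℝ) ^ 2 = Real.pi ^ 2 / 6 := by
      simp
    rw [h4] at h2
    refine h2.congr_fun ?_
    intro n
    push_cast
    rfl
  rw [h3.tsum_eq]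
  have hp := Real.pi_lt_d2
  have hp0 := Real.pi_pos
  nlinarith

theorem fK_bound (K : ℕ) (hK : 2 ≤ K) (x : ℝ) : |fK K x| ≤ 2 := by
  have hpi : (1 : ℝ) ≤ Real.pi := by
    have := Real.pi_gt_three
    linarith
  have hU : |U K x| ≤ 2 := by
    unfold U
    rw [← Real.norm_eq_abs]
    have h1 : ‖∑' n : ℕ, tm K n x‖ ≤ ∑' n : ℕ, 1 / ((n : ℝ) + 1) ^ K := by
      refine tsum_of_norm_bounded (summable_pow K hK).hasSum ?_
      intro n
      exact tm_bound K n x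
    refine h1.trans (le_trans ?_ A3_sum_two)
    refine Summable.tsum_le_tsum ?_ (summable_pow K hK) (summable_pow 2 le_rfl)
    intro n
    have hn : (1 : ℝ) ≤ (n : ℝ) + 1 := by
      have := Nat.cast_nonneg (α := ℝ) n
      linarith
    exact one_div_le_one_div_of_le (by positivity) (pow_le_pow_right₀ hn hK)
  unfold fK
  have hpk : (1 : ℝ) ≤ Real.pi ^ K := one_le_pow₀ hpi
  rw [abs_div, abs_of_nonneg (by linarith : (0 : ℝ) ≤ Real.pi ^ K)]
  have h2 : |U K x| / Real.pi ^ K ≤ |U K x| := div_le_self (abs_nonneg _) hpk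
  linarith

end PR9
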