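import Mathlib

set_option autoImplicit false
open Filter Topology Polynomial Finset

namespace PR9

/-- ROW B1a. Division by the zeros. Induction on `Z` (`Finset.induction_on`): if `G v = (∏ (v - a)) * G1 v` and `b ∉ Z` is a
further zero, then `G1 b = 0` and `G1 v = (v - b) * dslope G1 b v` (`dslope_sub_smul` ..., `sub_smul_dslope`), `dslope G1 b` is
differentiable on the ball (`Complex.differentiableOn_dslope`). -/
theorem divide (G : ℂ → ℂ) (r : ℝ) (hG : DifferentiableOn ℂ G (Metric.ball 0 r)) (Z : Finset ℂ)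
    (hZ : ∀ a ∈ Z, a ∈ Metric.ball (0 : ℂ) r ∧ G a = 0) :
    ∃ G1 : ℂ → ℂ, DifferentiableOn ℂ G1 (Metric.ball 0 r) ∧
      ∀ v ∈ Metric.ball (0 : ℂ) r, G v = (∏ a ∈ Z, (v - a)) * G1 v := by
  induction Z using Finset.induction_on with
  | empty => exact ⟨G, hG, fun v _ => by simp⟩
  | insert b Z hb ih =>
    obtain ⟨G1, hG1, h1⟩ := ih fun a ha => hZ a (Finset.mem_insert_of_mem ha)
    obtain ⟨hbr, hGb⟩ := hZ b (Finset.mem_insert_self b Z)
    have h2 : G1 b = 0 := by
      have h3 := h1 b hbr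
      rw [hGb] at h3
      rcases mul_eq_zero.1 h3.symm with h4 | h4
      · rw [Finset.prod_eq_zero_iff] at h4
        obtain ⟨a, ha, hab⟩ := h4
        rw [sub_eq_zero] at hab
        exact absurd (hab ▸ ha) hb
      · exact h4
    refine ⟨dslope G1 b, (Complex.differentiableOn_dslope
      (Metric.isOpen_ball.mem_nhds hbr)).2 hG1, fun v hv => ?_⟩
    have h5 : (v - b) * dslope G1 b v = G1 v := by
      have h6 := sub_smul_dslope G1 b v
      rwa [smul_eq_mul, h2, sub_zero] at h6
    rw [h1 v hv, Finset.prod_insert hb, ← h5]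
    ring

end PR9
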