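import Pool.Agent.LibPR9.B1a

set_option autoImplicit false
open Filter Topology Polynomial Finset

namespace PR9

theorem B1b_circle {v : ℂ} (hv : ‖v‖ = 1) (a : ℝ) : ‖1 - (a : ℂ) * v‖ = ‖v - (a : ℂ)‖ := by
  have h1 : v * (starRingEnd ℂ) v = 1 := by
    rw [Complex.mul_conj, Complex.normSq_eq_norm_sq, hv]
    simp
  have h2 : 1 - (a : ℂ) * v = v * (starRingEnd ℂ) (v - (a : ℂ)) := by
    rw [map_sub, Complex.conj_ofReal, mul_sub, h1]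
    ring
  rw [h2, norm_mul, hv, one_mul, Complex.norm_conj]

theorem B1b_ne {v : ℂ} (hv : ‖v‖ < 1) {a : ℝ} (h1 : -1 < a) (h2 : a < 1) :
    1 - (a : ℂ) * v ≠ 0 := by
  intro h
  have h3 : (a : ℂ) * v = 1 := (sub_eq_zero.1 h).symm
  have h4 : ‖(a : ℂ) * v‖ = 1 := by rw [h3, norm_one]
  rw [norm_mul, Complex.norm_real, Real.norm_eq_abs] at h4
  have h5 : |a| < 1 := abs_lt.2 ⟨h1, h2⟩
  have h6 : |a| * ‖v‖ ≤ 1 * ‖v‖ := mul_le_mul_of_nonneg_right h5.le (norm_nonneg v)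
  linarith

/-- ROW B1b. Blaschke. With `G1` of row B1a (`Z` mapped to `ℂ`): `Φ v = G1 v * ∏ (1 - a v)` is holomorphic on the ball of radius
`r > 1`, and on `‖v‖ = 1` one has `‖1 - a v‖ = ‖v - a‖` (`a` real: `‖v - a‖ = ‖conj v - a‖ = ‖1 - a v‖` as `v conj v = 1`), so
`‖Φ v‖ = ‖G v‖ ≤ M` there. Maximum modulus (`Complex.norm_le_of_forall_mem_frontier_norm_le` on the unit ball): `‖Φ v‖ ≤ M` for
`‖v‖ < 1`, i.e. `‖G v‖ = ‖∏ (v - a)‖ ‖G1 v‖ ≤ M ∏ ‖(v - a)/(1 - a v)‖` (`1 - a v ≠ 0`). -/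
theorem blaschke (G : ℂ → ℂ) (r : ℝ) (hr : 1 < r) (hG : DifferentiableOn ℂ G (Metric.ball 0 r))
    (M : ℝ) (hM : ∀ v : ℂ, ‖v‖ = 1 → ‖G v‖ ≤ M) (Z : Finset ℝ)
    (hZ : ∀ a ∈ Z, -1 < a ∧ a < 1 ∧ G (a : ℂ) = 0) (v : ℂ) (hv : ‖v‖ < 1) :
    ‖G v‖ ≤ M * ∏ a ∈ Z, ‖(v - (a : ℂ)) / (1 - (a : ℂ) * v)‖ := by
  classical
  obtain ⟨G1, hG1, h1⟩ := divide G r hG (Z.image fun a : ℝ => (a : ℂ)) (by
    intro a ha
    rw [Finset.mem_image] at ha
    obtain ⟨b, hb, rfl⟩ := ha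
    obtain ⟨h2, h3, h4⟩ := hZ b hb
    refine ⟨?_, h4⟩
    rw [Metric.mem_ball, dist_zero_right, Complex.norm_real, Real.norm_eq_abs]
    exact lt_trans (abs_lt.2 ⟨h2, h3⟩) hr)
  have hprod : ∀ w : ℂ, (∏ a ∈ Z.image fun a : ℝ => (a : ℂ), (w - a)) =
      ∏ a ∈ Z, (w - (a : ℂ)) := fun w =>
    Finset.prod_image fun a _ b _ hab => Complex.ofReal_injective hab
  set Φ : ℂ → ℂ := fun w => G1 w * ∏ a ∈ Z, (1 - (a : ℂ) * w) with hΦ
  have hΦd : DifferentiableOn ℂ Φ (Metric.ball 0 r) := by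
    apply hG1.mul
    apply DifferentiableOn.fun_finsetProd
    intro a _
    exact (differentiableOn_const _).sub ((differentiableOn_const _).mul differentiableOn_id)
  have hcl : closure (Metric.ball (0 : ℂ) 1) = Metric.closedBall 0 1 :=
    closure_ball (0 : ℂ) one_ne_zero
  have hfr : frontier (Metric.ball (0 : ℂ) 1) = Metric.sphere 0 1 :=
    frontier_ball (0 : ℂ) one_ne_zero
  have hsub : Metric.closedBall (0 : ℂ) 1 ⊆ Metric.ball 0 r := Metric.closedBall_subset_ball hr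
  have hdc : DiffContOnCl ℂ Φ (Metric.ball 0 1) := by
    refine DifferentiableOn.diffContOnCl ?_
    rw [hcl]
    exact hΦd.mono hsub
  have hb : ∀ w ∈ frontier (Metric.ball (0 : ℂ) 1), ‖Φ w‖ ≤ M := by
    intro w hw
    rw [hfr, mem_sphere_zero_iff_norm] at hw
    have hwr : w ∈ Metric.ball (0 : ℂ) r := by
      rw [Metric.mem_ball, dist_zero_right, hw]
      exact hr
    have h5 : ‖Φ w‖ = ‖G w‖ := by
      rw [h1 w hwr, hprod w]
      show ‖G1 w * ∏ a ∈ Z, (1 - (a : ℂ) * w)‖ = ‖(∏ a ∈ Z, (w - (a : ℂ))) * G1 w‖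
      rw [norm_mul, norm_mul, norm_prod, norm_prod, mul_comm]
      congr 1
      exact Finset.prod_congr rfl fun a _ => B1b_circle hw a
    rw [h5]
    exact hM w hw
  have hv1 : v ∈ Metric.ball (0 : ℂ) 1 := by
    rw [Metric.mem_ball, dist_zero_right]
    exact hv
  have hmax : ‖Φ v‖ ≤ M :=
    Complex.norm_le_of_forall_mem_frontier_norm_le Metric.isBounded_ball hdc hb
      (subset_closure hv1)
  have hvr : v ∈ Metric.ball (0 : ℂ) r := hsub (Metric.ball_subset_closedBall hv1)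
  have hne : ∀ a ∈ Z, 1 - (a : ℂ) * v ≠ 0 := fun a ha => B1b_ne hv (hZ a ha).1 (hZ a ha).2.1
  have h6 : G v = Φ v * ∏ a ∈ Z, ((v - (a : ℂ)) / (1 - (a : ℂ) * v)) := by
    rw [h1 v hvr, hprod v, Finset.prod_div_distrib]
    show (∏ a ∈ Z, (v - (a : ℂ))) * G1 v = G1 v * (∏ a ∈ Z, (1 - (a : ℂ) * v)) *
      ((∏ a ∈ Z, (v - (a : ℂ))) / ∏ a ∈ Z, (1 - (a : ℂ) * v))
    have h7 : (∏ a ∈ Z, (1 - (a : ℂ) * v)) ≠ 0 := Finset.prod_ne_zero_iff.2 hne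
    generalize (∏ a ∈ Z, (1 - (a : ℂ) * v)) = D at h7 ⊢
    field_simp
  rw [h6, norm_mul, norm_prod]
  exact mul_le_mul_of_nonneg_right hmax (Finset.prod_nonneg fun a _ => norm_nonneg _)

end PR9
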