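import Pool.Agent.LibPR9.Defs

set_option autoImplicit false
open Filter Topology Polynomial Finset
open Pool.Agent.LibTri77 Pool.Agent.LibTri68P

namespace PR9

/-- ROW B2a. The point of the sheet `k` lies in the big disc. `v = 1 - (t - i y)/T`, `y = 2πk ≤ 2πB`, `T = 100 B^2`:
`‖v‖^2 = 1 - (2tT - t^2 - y^2)/T^2` and `t^2 + y^2 ≤ 3.61 + 39.5 B^2 ≤ 43.2 B^2 = 0.432 T`, `2tT ≥ 1.8 T`: `‖v‖^2 ≤ 1 - 1/T < 1`. -/
theorem sheet_in (B k : ℕ) (hB : 2 ≤ B) (hk : k < B) (t : ℝ) (ht : 9 / 10 ≤ t) (ht2 : t ≤ 19 / 10) :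
    ‖(1 : ℂ) - ((t : ℂ) - 2 * Real.pi * Complex.I * k) / (TB B : ℂ)‖ ^ 2 ≤ 1 - 1 / TB B := by
  have hB1 : (2 : ℝ) ≤ B := by exact_mod_cast hB
  have hkB : (k : ℝ) ≤ B := by exact_mod_cast hk.le
  have hk0 : (0 : ℝ) ≤ k := Nat.cast_nonneg k
  have hT : TB B = 100 * (B : ℝ) ^ 2 := rfl
  set T := TB B with hTd
  have hT0 : 0 < T := by rw [hT]; positivity
  have hre : ((1 : ℂ) - ((t : ℂ) - 2 * Real.pi * Complex.I * k) / (T : ℂ)).re = 1 - t / T := by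
    rw [Complex.sub_re, Complex.one_re, Complex.div_ofReal_re]
    simp
  have him : ((1 : ℂ) - ((t : ℂ) - 2 * Real.pi * Complex.I * k) / (T : ℂ)).im =
      2 * Real.pi * k / T := by
    rw [Complex.sub_im, Complex.one_im, Complex.div_ofReal_im]
    simp
    ring
  rw [← Complex.normSq_eq_norm_sq, Complex.normSq_apply, hre, him]
  have hpi := Real.pi_lt_d2
  have hpi0 := Real.pi_pos
  have hy : (2 * Real.pi * k) ^ 2 ≤ 40 * (B : ℝ) ^ 2 := by
    have h1 : 2 * Real.pi * k ≤ 6.3 * B := by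
      have : 2 * Real.pi ≤ 6.3 := by linarith
      exact mul_le_mul this hkB hk0 (by norm_num)
    have h2 : 0 ≤ 2 * Real.pi * k := by positivity
    nlinarith
  have hmain : t ^ 2 + (2 * Real.pi * k) ^ 2 ≤ (2 * t - 1) * T := by
    rw [hT]
    nlinarith
  have e1 : (1 - t / T) * (1 - t / T) + 2 * Real.pi * k / T * (2 * Real.pi * k / T) =
      1 - 2 * t / T + (t ^ 2 + (2 * Real.pi * k) ^ 2) / T ^ 2 := by
    field_simp
    ring
  have e2 : (t ^ 2 + (2 * Real.pi * k) ^ 2) / T ^ 2 ≤ (2 * t - 1) / T := by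
    rw [div_le_div_iff₀ (by positivity) hT0]
    nlinarith [mul_le_mul_of_nonneg_right hmain hT0.le]
  have e3 : (2 * t - 1) / T = 2 * t / T - 1 / T := by
    rw [sub_div]
  rw [e1]
  linarith

/-- ROW B2b. The Blaschke factor. `a = 1 - s/T`, `v = 1 - (t - i y)/T`.
`1 - ‖(v - a)/(1 - a v)‖^2 = (1 - ‖v‖^2)(1 - a^2)/‖1 - a v‖^2` (`a` real); `1 - ‖v‖^2 ≥ 1/T` (B2a); `1 - a^2 = (s/T)(2 - s/T) ≥ s/T`
(`s ≤ B^2 ≤ T`); `1 - a v = (s + w)/T - s w/T^2`, `w = t - i y`, `‖w‖ ≤ 2 + 2πB ≤ 8B`: `‖1 - a v‖ ≤ 2 (s + 8B)/T`. So the quotient is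
`≥ s/(4 (s + 8B)^2)`, and `(s + 8B)^2 ≤ 2 s^2 + 128 B^2 ≤ 2 B^2 s + 218 B^2 s = 220 B^2 s` (`s ≥ 59/100`): `≥ 1/(880 B^2)`.
`1 - c ≤ exp(-c)`, square root. -/
theorem bl_factor (B k : ℕ) (hB : 2 ≤ B) (hk : k < B) (t s : ℝ) (ht : 9 / 10 ≤ t)
    (ht2 : t ≤ 19 / 10) (hs : 59 / 100 ≤ s) (hs2 : s ≤ (B : ℝ) ^ 2) :
    ‖(((1 : ℂ) - ((t : ℂ) - 2 * Real.pi * Complex.I * k) / (TB B : ℂ)) -
        ((1 - s / TB B : ℝ) : ℂ)) /
      (1 - ((1 - s / TB B : ℝ) : ℂ) *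
        ((1 : ℂ) - ((t : ℂ) - 2 * Real.pi * Complex.I * k) / (TB B : ℂ)))‖ ≤
      Real.exp (-1 / (1760 * (B : ℝ) ^ 2)) := by
  have hv := sheet_in B k hB hk t ht ht2
  have hB1 : (2 : ℝ) ≤ B := by exact_mod_cast hB
  have hkB : (k : ℝ) + 1 ≤ B := by exact_mod_cast hk
  have hk0 : (0 : ℝ) ≤ k := Nat.cast_nonneg k
  have hT : TB B = 100 * (B : ℝ) ^ 2 := rfl
  set T := TB B with hTd
  have hT0 : 0 < T := by rw [hT]; positivity
  have hB2 : (0 : ℝ) < (B : ℝ) ^ 2 := by positivity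
  set w : ℂ := (t : ℂ) - 2 * Real.pi * Complex.I * k with hw
  set v : ℂ := (1 : ℂ) - w / (T : ℂ) with hvd
  set a : ℝ := 1 - s / T with ha
  have hTc : (T : ℂ) ≠ 0 := by
    rw [Ne, Complex.ofReal_eq_zero]
    exact hT0.ne'
  -- the identity
  have hid : ‖1 - (a : ℂ) * v‖ ^ 2 - ‖v - (a : ℂ)‖ ^ 2 = (1 - ‖v‖ ^ 2) * (1 - a ^ 2) := by
    simp only [← Complex.normSq_eq_norm_sq, Complex.normSq_apply, Complex.sub_re, Complex.sub_im,
      Complex.one_re, Complex.one_im, Complex.mul_re, Complex.mul_im, Complex.ofReal_re,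
      Complex.ofReal_im]
    ring
  have hs0 : 0 < s := by linarith
  have hsT : s ≤ T := by
    rw [hT]
    nlinarith
  have h1a : s / T ≤ 1 - a ^ 2 := by
    have h1 : s / T ≤ 1 := by
      rw [div_le_one hT0]
      exact hsT
    have h2 : 0 < s / T := by positivity
    have h3 : 1 - a ^ 2 = (s / T) * (2 - s / T) := by
      rw [ha]
      ring
    rw [h3]
    nlinarith
  have h1v : 1 / T ≤ 1 - ‖v‖ ^ 2 := by linarith
  have hlow : s / T ^ 2 ≤ ‖1 - (a : ℂ) * v‖ ^ 2 - ‖v - (a : ℂ)‖ ^ 2 := by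
    rw [hid]
    have h2 : 0 < s / T := by positivity
    have h3 : 0 < 1 / T := by positivity
    have h4 : 1 / T * (s / T) ≤ (1 - ‖v‖ ^ 2) * (1 - a ^ 2) :=
      mul_le_mul h1v h1a h2.le (by linarith)
    have h5 : 1 / T * (s / T) = s / T ^ 2 := by
      rw [div_mul_div_comm, one_mul, pow_two]
    rw [← h5]
    exact h4
  -- the size of `w`
  have hwn : ‖w‖ ≤ 8 * B := by
    have h1 : ‖w‖ ≤ ‖(t : ℂ)‖ + ‖2 * (Real.pi : ℂ) * Complex.I * k‖ := norm_sub_le _ _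
    have h2 : ‖(t : ℂ)‖ = t := by
      rw [Complex.norm_real, Real.norm_eq_abs, abs_of_pos (by linarith)]
    have h3 : ‖2 * (Real.pi : ℂ) * Complex.I * k‖ = 2 * Real.pi * k := by
      rw [norm_mul, norm_mul, norm_mul, Complex.norm_I, Complex.norm_real, Complex.norm_natCast,
        Real.norm_eq_abs, abs_of_pos Real.pi_pos, mul_one]
      norm_num
    rw [h2, h3] at h1
    have hpi := Real.pi_lt_d2
    have h4 : 2 * Real.pi * k ≤ 6.3 * (B - 1) := by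
      have : 2 * Real.pi ≤ 6.3 := by linarith
      exact mul_le_mul this (by linarith) hk0 (by norm_num)
    linarith
  have hden : ‖1 - (a : ℂ) * v‖ ≤ 2 * (s + 8 * B) / T := by
    have e1 : 1 - (a : ℂ) * v = (s : ℂ) / T + w / T - (s : ℂ) * w / (T : ℂ) ^ 2 := by
      rw [ha, hvd]
      push_cast
      field_simp
      ring
    rw [e1]
    have h1 : ‖(s : ℂ) / T‖ = s / T := by
      rw [norm_div, Complex.norm_real, Complex.norm_real, Real.norm_eq_abs, Real.norm_eq_abs,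
        abs_of_pos hs0, abs_of_pos hT0]
    have h2 : ‖w / (T : ℂ)‖ = ‖w‖ / T := by
      rw [norm_div, Complex.norm_real, Real.norm_eq_abs, abs_of_pos hT0]
    have h3 : ‖(s : ℂ) * w / (T : ℂ) ^ 2‖ = s * ‖w‖ / T ^ 2 := by
      rw [norm_div, norm_mul, norm_pow, Complex.norm_real, Complex.norm_real, Real.norm_eq_abs,
        Real.norm_eq_abs, abs_of_pos hs0, abs_of_pos hT0]
    have h4 : s * ‖w‖ / T ^ 2 ≤ ‖w‖ / T := by
      rw [div_le_div_iff₀ (by positivity) hT0]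
      have h5 : s * ‖w‖ ≤ T * ‖w‖ := mul_le_mul_of_nonneg_right hsT (norm_nonneg _)
      nlinarith [mul_le_mul_of_nonneg_right h5 hT0.le]
    have h5 : ‖(s : ℂ) / T + w / T - (s : ℂ) * w / (T : ℂ) ^ 2‖ ≤
        s / T + ‖w‖ / T + s * ‖w‖ / T ^ 2 := by
      refine (norm_sub_le _ _).trans ?_
      rw [h3]
      have := norm_add_le ((s : ℂ) / T) (w / T)
      rw [h1, h2] at this
      linarith
    have h6 : s / T + ‖w‖ / T + ‖w‖ / T ≤ 2 * (s + 8 * B) / T := by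
      rw [← add_div, ← add_div]
      exact div_le_div_of_nonneg_right (by linarith) hT0.le
    linarith
  -- the quotient
  set D := ‖1 - (a : ℂ) * v‖ with hD
  set N := ‖v - (a : ℂ)‖ with hN
  have hD0 : 0 < D := by
    by_contra hcon
    have h1 : D = 0 := le_antisymm (not_lt.1 hcon) (norm_nonneg _)
    have h2 : 0 < s / T ^ 2 := by positivity
    rw [h1] at hlow
    nlinarith [sq_nonneg N]
  have hDsq : D ^ 2 ≤ 880 * (B : ℝ) ^ 2 * (s / T ^ 2) := by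
    have h1 : D ^ 2 ≤ (2 * (s + 8 * B) / T) ^ 2 := pow_le_pow_left₀ hD0.le hden 2
    refine h1.trans ?_
    have h2 : (2 * (s + 8 * B) / T) ^ 2 = 4 * (s + 8 * B) ^ 2 / T ^ 2 := by
      rw [div_pow]
      ring
    have h3 : 880 * (B : ℝ) ^ 2 * (s / T ^ 2) = 880 * (B : ℝ) ^ 2 * s / T ^ 2 := by
      rw [mul_div_assoc]
    rw [h2, h3]
    refine div_le_div_of_nonneg_right ?_ (by positivity)
    have h4 : (s + 8 * B) ^ 2 ≤ 2 * s ^ 2 + 128 * (B : ℝ) ^ 2 := by nlinarith [sq_nonneg (s - 8 * B)]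
    have h5 : s ^ 2 ≤ (B : ℝ) ^ 2 * s := by nlinarith
    have h6 : 128 * (B : ℝ) ^ 2 ≤ 218 * ((B : ℝ) ^ 2 * s) := by nlinarith
    nlinarith
  have hratio : (N / D) ^ 2 ≤ 1 - 1 / (880 * (B : ℝ) ^ 2) := by
    rw [div_pow, div_le_iff₀ (by positivity), sub_mul, one_mul]
    have h1 : 1 / (880 * (B : ℝ) ^ 2) * D ^ 2 ≤ s / T ^ 2 := by
      rw [one_div, inv_mul_le_iff₀ (by positivity)]
      exact hDsq
    linarith
  have hexp : 1 - 1 / (880 * (B : ℝ) ^ 2) ≤ Real.exp (-1 / (1760 * (B : ℝ) ^ 2)) ^ 2 := by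
    have h1 := Real.add_one_le_exp (-(1 / (880 * (B : ℝ) ^ 2)))
    have h2 : Real.exp (-1 / (1760 * (B : ℝ) ^ 2)) ^ 2 = Real.exp (-(1 / (880 * (B : ℝ) ^ 2))) := by
      rw [← Real.exp_nat_mul]
      congr 1
      push_cast
      field_simp
      norm_num
    rw [h2]
    linarith
  rw [norm_div]
  exact (pow_le_pow_iff_left₀ (by positivity) (Real.exp_pos _).le two_ne_zero).1
    (hratio.trans hexp)

end PR9
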