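import Mathlib

set_option autoImplicit false
open Filter Topology Polynomial Finset

namespace PR9

private theorem B3_step {p : ℂ[X]} {M : ℝ} (hp : ∀ b, ‖p.coeff b‖ ≤ M) (w y : ℂ) (b : ℕ) :
    ‖((C w * (X - C y)) * p).coeff b‖ ≤ ‖w‖ * (1 + ‖y‖) * M := by
  have hM : 0 ≤ M := (norm_nonneg _).trans (hp 0)
  have h1 : ((C w * (X - C y)) * p) = C w * ((X - C y) * p) := by ring
  rw [h1, coeff_C_mul, norm_mul, mul_assoc]
  refine mul_le_mul_of_nonneg_left ?_ (norm_nonneg _)
  rw [sub_mul, coeff_sub, coeff_C_mul]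
  have h2 : ‖(X * p).coeff b‖ ≤ M := by
    cases b with
    | zero => simpa using hM
    | succ n =>
      rw [coeff_X_mul]
      exact hp n
  calc ‖(X * p).coeff b - y * p.coeff b‖ ≤ ‖(X * p).coeff b‖ + ‖y * p.coeff b‖ := norm_sub_le _ _
    _ ≤ M + ‖y‖ * M := by
        rw [norm_mul]
        exact add_le_add h2 (mul_le_mul_of_nonneg_left (hp b) (norm_nonneg _))
    _ = (1 + ‖y‖) * M := by ring

private theorem B3_prod (t : Finset ℕ) (w y : ℕ → ℂ) (R : ℝ) (hR : 0 ≤ R)
    (h : ∀ l ∈ t, ‖w l‖ * (1 + ‖y l‖) ≤ R) (b : ℕ) :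
    ‖(∏ l ∈ t, (C (w l) * (X - C (y l)))).coeff b‖ ≤ R ^ t.card := by
  classical
  revert b
  induction t using Finset.induction_on with
  | empty =>
    intro b
    rw [prod_empty, card_empty, pow_zero, coeff_one]
    split_ifs <;> simp
  | insert a s ha ih =>
    intro b
    rw [prod_insert ha, card_insert_of_notMem ha, pow_succ']
    have h1 := B3_step (ih fun l hl => h l (mem_insert_of_mem hl)) (w a) (y a) b
    exact h1.trans (mul_le_mul_of_nonneg_right (h a (mem_insert_self _ _)) (pow_nonneg hR _))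

/-- ROW B3. Coefficients of a polynomial from its values at the points `f + k g`, `k < B`.
PLAN. `q = ∑_{b<B} C (c b) X^b` has degree `< B`; Lagrange interpolation at the distinct nodes `y_k = f + k g`
(`Lagrange.sum_basis`, `Lagrange.eq_interpolate_of_eval_eq`, or: `q = ∑_k C (q(y_k) / ∏_{l≠k} (y_k - y_l)) ∏_{l≠k} (X - C y_l)`).
`∏_{l≠k} ‖y_k - y_l‖ = ∏ |k - l| ‖g‖ ≥ γ^(B-1)`. The coefficients of `∏_{l≠k} (X - C y_l)` (`B - 1` factors) have norm at most
`∏ (1 + ‖y_l‖) ≤ (1 + Γ + B Γ)^(B-1)` (lemma by induction on the product: the sum of the norms of the coefficients of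
`(X - C y) p` is at most `(1 + ‖y‖)` times that of `p`). -/
theorem extract (B : ℕ) (c : ℕ → ℂ) (f g : ℂ) (ε γ Γ : ℝ) (hγ : 0 < γ) (hg : γ ≤ ‖g‖)
    (hf : ‖f‖ ≤ Γ) (hg2 : ‖g‖ ≤ Γ)
    (hε : ∀ k : ℕ, k < B → ‖∑ b ∈ range B, c b * (f + k * g) ^ b‖ ≤ ε) :
    ∀ b, b < B → ‖c b‖ ≤ B * ((1 + Γ + B * Γ) / γ) ^ (B - 1) * ε := by
  intro b hb
  have hΓ : 0 ≤ Γ := (norm_nonneg _).trans hf
  have hB : 0 < B := by omega
  have hg0 : g ≠ 0 := by
    intro h0
    rw [h0, norm_zero] at hg
    linarith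
  have hε0 : 0 ≤ ε := (norm_nonneg _).trans (hε 0 hB)
  set q : ℂ[X] := ∑ b ∈ range B, C (c b) * X ^ b with hq
  set v : ℕ → ℂ := fun k => f + k * g with hv
  have hinj : Set.InjOn v (range B : Finset ℕ) := by
    intro i _ j _ hij
    have h1 : ((i : ℂ)) * g = (j : ℂ) * g := add_left_cancel hij
    have h2 := mul_right_cancel₀ hg0 h1
    exact_mod_cast h2
  have hdeg : q.degree < (range B).card := by
    rw [card_range]
    refine (degree_sum_le _ _).trans_lt ?_
    rw [Finset.sup_lt_iff (by exact_mod_cast WithBot.bot_lt_coe B)]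
    intro i hi
    refine (degree_C_mul_X_pow_le i (c i)).trans_lt ?_
    exact_mod_cast mem_range.1 hi
  have heval : ∀ i ∈ range B, eval (v i) q = ∑ b ∈ range B, c b * (f + i * g) ^ b := by
    intro i _
    rw [hq, eval_finset_sum]
    refine sum_congr rfl fun b _ => ?_
    rw [eval_mul, eval_C, eval_pow, eval_X]
  have hint := Lagrange.eq_interpolate_of_eval_eq
    (fun i : ℕ => ∑ b ∈ range B, c b * (f + i * g) ^ b) hinj hdeg heval
  have hcoeff : q.coeff b = c b := by
    rw [hq, finset_sum_coeff]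
    simp only [coeff_C_mul, coeff_X_pow, mul_ite, mul_one, mul_zero]
    rw [Finset.sum_ite_eq, if_pos (mem_range.2 hb)]
  rw [← hcoeff, hint, Lagrange.interpolate_apply, finset_sum_coeff]
  have hR : 0 ≤ (1 + Γ + B * Γ) / γ := by positivity
  have hterm : ∀ i ∈ range B, ‖(C (∑ b ∈ range B, c b * (f + i * g) ^ b) *
      Lagrange.basis (range B) v i).coeff b‖ ≤ ε * ((1 + Γ + B * Γ) / γ) ^ (B - 1) := by
    intro i hi
    rw [coeff_C_mul, norm_mul]
    refine mul_le_mul (hε i (mem_range.1 hi)) ?_ (norm_nonneg _) hε0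
    have h1 : Lagrange.basis (range B) v i =
        ∏ l ∈ (range B).erase i, (C ((v i - v l)⁻¹) * (X - C (v l))) := rfl
    have h2 := B3_prod ((range B).erase i) (fun l => (v i - v l)⁻¹) v ((1 + Γ + B * Γ) / γ) hR
      (fun l hl => by
        have hne : l ≠ i := ne_of_mem_erase hl
        have hlB : l < B := mem_range.1 (mem_of_mem_erase hl)
        have h3 : v i - v l = (((i : ℤ) - (l : ℤ) : ℤ) : ℂ) * g := by
          simp only [hv]
          push_cast
          ring
        have h4 : (1 : ℝ) ≤ ‖(((i : ℤ) - (l : ℤ) : ℤ) : ℂ)‖ := by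
          rw [Complex.norm_intCast]
          have h5 : (1 : ℤ) ≤ |(i : ℤ) - l| := Int.one_le_abs (by omega)
          exact_mod_cast h5
        have h5 : γ ≤ ‖v i - v l‖ := by
          rw [h3, norm_mul]
          calc γ ≤ 1 * ‖g‖ := by rw [one_mul]; exact hg
            _ ≤ _ := mul_le_mul_of_nonneg_right h4 (norm_nonneg _)
        have h6 : ‖v l‖ ≤ Γ + B * Γ := by
          simp only [hv]
          refine (norm_add_le _ _).trans (add_le_add hf ?_)
          rw [norm_mul, Complex.norm_natCast]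
          exact mul_le_mul (by exact_mod_cast hlB.le) hg2 (norm_nonneg _) (Nat.cast_nonneg _)
        rw [norm_inv, div_eq_inv_mul]
        refine mul_le_mul (inv_anti₀ hγ h5) (by linarith) (by positivity) (by positivity)) b
    rw [h1]
    rw [card_erase_of_mem hi, card_range] at h2
    exact h2
  refine (norm_sum_le _ _).trans ((sum_le_sum hterm).trans ?_)
  rw [sum_const, card_range, nsmul_eq_mul]
  exact le_of_eq (by ring)

end PR9
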