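import Pool.Agent.LibPR9.Defs

set_option autoImplicit false
open Filter Topology Polynomial Finset
open Pool.Agent.LibTri77 Pool.Agent.LibTri68P

namespace PR9

private theorem B4_split (A i : ℕ) (hi : i ≤ A) (f : ℕ → ℝ) :
    ∏ j ∈ (range (A + 1)).erase i, f j =
      (∏ j ∈ range i, f j) * ∏ j ∈ range (A - i), f (i + (j + 1)) := by
  set g : ℕ → ℝ := fun j => if j = i then 1 else f j with hg
  have h1 : ∏ j ∈ (range (A + 1)).erase i, f j = ∏ j ∈ (range (A + 1)).erase i, g j := by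
    refine prod_congr rfl fun j hj => ?_
    rw [hg]
    simp only
    rw [if_neg (Finset.ne_of_mem_erase hj)]
  have h2 : g i = 1 := by rw [hg]; simp
  rw [h1, prod_erase _ h2]
  have h3 : A + 1 = i + (A - i + 1) := by omega
  rw [h3, prod_range_add, prod_range_succ']
  have h4 : g (i + 0) = 1 := h2
  rw [h4, mul_one]
  congr 1
  · refine prod_congr rfl fun j hj => ?_
    have := mem_range.1 hj
    rw [hg]
    simp only
    rw [if_neg (by omega)]
  · refine prod_congr rfl fun j _ => ?_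
    rw [hg]
    simp only
    rw [if_neg (by omega)]

private theorem B4_prod (A i : ℕ) (hi : i ≤ A) (c : ℝ) :
    ∏ j ∈ (range (A + 1)).erase i, (c / |(i : ℝ) - j|) =
      c ^ A / ((i.factorial : ℝ) * ((A - i).factorial : ℝ)) := by
  rw [B4_split A i hi]
  have h1 : ∏ j ∈ range i, (c / |(i : ℝ) - j|) = c ^ i / (i.factorial : ℝ) := by
    rw [prod_div_distrib, prod_const, card_range]
    congr 1
    rw [← prod_range_add_one_eq_factorial, ← prod_range_reflect]
    push_cast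
    refine prod_congr rfl fun j hj => ?_
    have h2 := mem_range.1 hj
    have h3 : ((i - 1 - j : ℕ) : ℝ) = (i : ℝ) - 1 - j := by
      rw [Nat.cast_sub (by omega), Nat.cast_sub (by omega)]
      simp
    have h4 : (j : ℝ) < i := by exact_mod_cast h2
    rw [abs_of_pos (by linarith), h3]
    ring
  have h2 : ∏ j ∈ range (A - i), (c / |(i : ℝ) - ((i + (j + 1) : ℕ) : ℝ)|) =
      c ^ (A - i) / ((A - i).factorial : ℝ) := by
    rw [prod_div_distrib, prod_const, card_range]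
    congr 1
    rw [← prod_range_add_one_eq_factorial]
    push_cast
    refine prod_congr rfl fun j _ => ?_
    have h3 : (i : ℝ) - (i + (j + 1)) = -((j : ℝ) + 1) := by ring
    rw [h3, abs_neg, abs_of_pos (by positivity)]
  rw [h1, h2, div_mul_div_comm, ← pow_add]
  congr 2
  omega

private theorem B4_sum (A : ℕ) : ∑ i ∈ range (A + 1),
    (1 : ℝ) / ((i.factorial : ℝ) * ((A - i).factorial : ℝ)) = 2 ^ A / (A.factorial : ℝ) := by
  have h1 : ((∑ i ∈ range (A + 1), A.choose i : ℕ) : ℝ) = 2 ^ A := by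
    rw [Nat.sum_range_choose]
    push_cast
    rfl
  rw [← h1, Nat.cast_sum, sum_div]
  refine sum_congr rfl fun i hi => ?_
  have h2 : i ≤ A := by
    have := mem_range.1 hi
    omega
  rw [Nat.cast_choose ℝ h2]
  have h3 : (A.factorial : ℝ) ≠ 0 := by exact_mod_cast A.factorial_ne_zero
  field_simp

private theorem B4_inj (A : ℕ) (hA : 1 ≤ A) (i j : ℕ)
    (h : ((nd A i : ℝ) : ℂ) = ((nd A j : ℝ) : ℂ)) : i = j := by
  have h1 : nd A i = nd A j := by exact_mod_cast h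
  unfold nd at h1
  have hA0 : (0 : ℝ) < 5 * A := by
    have : (1 : ℝ) ≤ A := by exact_mod_cast hA
    linarith
  have h2 : (i : ℝ) / (5 * A) = (j : ℝ) / (5 * A) := by linarith
  rw [div_left_inj' hA0.ne'] at h2
  exact_mod_cast h2

/-- ROW B4. Growth of a polynomial of degree `≤ A` from its values at the `A + 1` nodes `nd A i ∈ [3/20, 7/20]`.
PLAN. Lagrange: `p z = ∑_{i≤A} p(x_i) ∏_{j≠i} (z - x_j)/(x_i - x_j)`; `‖z - x_j‖ ≤ 1 + 7/20 ≤ 2`;
`∏_{j≠i} |x_i - x_j| = (1/(5A))^A i! (A-i)!`; `∑_i 1/(i! (A-i)!) = 2^A/A!` (`Nat.sum_range_choose`), and `A^A/A! ≤ e^A`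
(`Real.pow_div_factorial_le_exp`). Total `≤ (2 · 5 · 2 · e)^A S ≤ 110^A S` (`e < 2.72`, `20 e ≤ 55`). -/
theorem growth (A : ℕ) (hA : 1 ≤ A) (p : ℂ[X]) (hp : p.natDegree ≤ A) (S : ℝ)
    (hS : ∀ i, i ≤ A → ‖p.eval ((nd A i : ℝ) : ℂ)‖ ≤ S) (z : ℂ) (hz : ‖z‖ ≤ 1) :
    ‖p.eval z‖ ≤ 110 ^ A * S := by
  have hA0 : (0 : ℝ) < A := by
    have : (1 : ℝ) ≤ A := by exact_mod_cast hA
    linarith
  have hS0 : 0 ≤ S := (norm_nonneg _).trans (hS 0 (Nat.zero_le _))
  have hinj : Set.InjOn (fun i : ℕ => ((nd A i : ℝ) : ℂ)) (range (A + 1) : Finset ℕ) :=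
    fun i _ j _ h => B4_inj A hA i j h
  have hdeg : p.degree < ((range (A + 1)).card : WithBot ℕ) := by
    rw [card_range]
    refine lt_of_le_of_lt p.degree_le_natDegree ?_
    exact_mod_cast Nat.lt_succ_of_le hp
  have hlag := Lagrange.eq_interpolate hinj hdeg
  have hev : p.eval z = ∑ i ∈ range (A + 1), p.eval ((nd A i : ℝ) : ℂ) *
      ∏ j ∈ (range (A + 1)).erase i,
        ((((nd A i : ℝ) : ℂ) - ((nd A j : ℝ) : ℂ))⁻¹ * (z - ((nd A j : ℝ) : ℂ))) := by
    conv_lhs => rw [hlag, Lagrange.interpolate_apply, eval_finsetSum]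
    refine sum_congr rfl fun i _ => ?_
    rw [eval_mul, eval_C, Lagrange.basis, eval_prod]
    congr 1
    refine prod_congr rfl fun j _ => ?_
    rw [Lagrange.basisDivisor, eval_mul, eval_C, eval_sub, eval_X, eval_C]
  rw [hev]
  have hterm : ∀ i ∈ range (A + 1), ‖p.eval ((nd A i : ℝ) : ℂ) *
      ∏ j ∈ (range (A + 1)).erase i,
        ((((nd A i : ℝ) : ℂ) - ((nd A j : ℝ) : ℂ))⁻¹ * (z - ((nd A j : ℝ) : ℂ)))‖ ≤
      S * ((10 * A) ^ A / ((i.factorial : ℝ) * ((A - i).factorial : ℝ))) := by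
    intro i hi
    have hi' : i ≤ A := by
      have := mem_range.1 hi
      omega
    rw [norm_mul, norm_prod, ← B4_prod A i hi' (10 * A)]
    refine mul_le_mul (hS i hi') ?_ (prod_nonneg fun _ _ => norm_nonneg _) hS0
    refine prod_le_prod (fun _ _ => norm_nonneg _) fun j hj => ?_
    have hj1 := Finset.ne_of_mem_erase hj
    have hj2 := mem_range.1 (Finset.mem_of_mem_erase hj)
    have h1 : (((nd A i : ℝ) : ℂ) - ((nd A j : ℝ) : ℂ)) = (((((i : ℝ) - j) / (5 * A) : ℝ)) : ℂ) := by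
      rw [← Complex.ofReal_sub]
      congr 1
      unfold nd
      ring
    have h2 : ‖z - ((nd A j : ℝ) : ℂ)‖ ≤ 2 := by
      refine (norm_sub_le _ _).trans ?_
      have h3 : ‖((nd A j : ℝ) : ℂ)‖ ≤ 7 / 20 := by
        rw [Complex.norm_real, Real.norm_eq_abs]
        unfold nd
        have h4 : (j : ℝ) ≤ A := by exact_mod_cast Nat.lt_succ_iff.1 hj2
        have h5 : (j : ℝ) / (5 * A) ≤ 1 / 5 := by
          rw [div_le_iff₀ (by positivity)]
          linarith
        rw [abs_of_pos (by positivity)]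
        linarith
      linarith
    have h6 : (i : ℝ) - j ≠ 0 := by
      rw [sub_ne_zero]
      exact_mod_cast Ne.symm hj1
    have h7 : 0 < |(i : ℝ) - j| := abs_pos.2 h6
    rw [h1, norm_mul, norm_inv, Complex.norm_real, Real.norm_eq_abs, abs_div,
      abs_of_pos (show (0 : ℝ) < 5 * A by positivity), inv_div]
    have h8 : 10 * (A : ℝ) / |(i : ℝ) - j| = 5 * A / |(i : ℝ) - j| * 2 := by ring
    rw [h8]
    exact mul_le_mul_of_nonneg_left h2 (by positivity)
  refine (norm_sum_le _ _).trans ((sum_le_sum hterm).trans ?_)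
  have h1 : ∑ i ∈ range (A + 1), S * ((10 * (A : ℝ)) ^ A /
      ((i.factorial : ℝ) * ((A - i).factorial : ℝ))) =
      S * (10 * (A : ℝ)) ^ A * (2 ^ A / (A.factorial : ℝ)) := by
    rw [← B4_sum A, mul_sum]
    refine sum_congr rfl fun i _ => ?_
    ring
  rw [h1]
  have h2 : (A : ℝ) ^ A / (A.factorial : ℝ) ≤ Real.exp 1 ^ A := by
    have := Real.pow_div_factorial_le_exp (A : ℝ) hA0.le A
    rwa [← Real.exp_one_pow] at this
  have h3 : Real.exp 1 ≤ 11 / 4 := by
    have := Real.exp_one_lt_d9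
    linarith
  have h4 : S * (10 * (A : ℝ)) ^ A * (2 ^ A / (A.factorial : ℝ)) =
      S * (20 ^ A * ((A : ℝ) ^ A / (A.factorial : ℝ))) := by
    rw [mul_pow, show (20 : ℝ) = 10 * 2 by norm_num, mul_pow]
    ring
  rw [h4, mul_comm]
  refine mul_le_mul_of_nonneg_right ?_ hS0
  calc (20 : ℝ) ^ A * ((A : ℝ) ^ A / (A.factorial : ℝ)) ≤ 20 ^ A * (11 / 4) ^ A := by
        refine mul_le_mul_of_nonneg_left (h2.trans ?_) (by positivity)
        exact pow_le_pow_left₀ (Real.exp_pos 1).le h3 A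
    _ = 55 ^ A := by
        rw [← mul_pow]
        norm_num
    _ ≤ 110 ^ A := pow_le_pow_left₀ (by norm_num) (by norm_num) A

/-- if all values at the nodes vanish then `p = 0` (`A + 1` zeros, degree `≤ A`) -/
theorem growth_zero (A : ℕ) (hA : 1 ≤ A) (p : ℂ[X]) (hp : p.natDegree ≤ A)
    (hS : ∀ i, i ≤ A → p.eval ((nd A i : ℝ) : ℂ) = 0) : p = 0 := by
  refine eq_zero_of_natDegree_lt_card_of_eval_eq_zero p
    (f := fun i : Fin (A + 1) => ((nd A i : ℝ) : ℂ)) ?_ ?_ ?_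
  · intro i j h
    exact Fin.ext (B4_inj A hA i j h)
  · intro i
    exact hS i (Nat.lt_succ_iff.1 i.isLt)
  · rw [Fintype.card_fin]
    omega

/-- the nodes lie in `[3/20, 7/20]`; `t = -log (nd A i) - 1/10` lies in `[9/10, 19/10]`
(`log (3/20) ≥ -2`: `exp (-2) ≤ 3/20`; `log (7/20) ≤ -1`: `7/20 ≤ exp (-1)`; use `Real.exp_one_lt_d9`, `Real.exp_one_gt_d9`). -/
theorem nd_range (A i : ℕ) (hA : 1 ≤ A) (hi : i ≤ A) : 3 / 20 ≤ nd A i ∧ nd A i ≤ 7 / 20 ∧
    9 / 10 ≤ -Real.log (nd A i) - 1 / 10 ∧ -Real.log (nd A i) - 1 / 10 ≤ 19 / 10 := by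
  have hA0 : (0 : ℝ) < A := by
    have : (1 : ℝ) ≤ A := by exact_mod_cast hA
    linarith
  have h1 : 3 / 20 ≤ nd A i := by
    unfold nd
    have : 0 ≤ (i : ℝ) / (5 * A) := by positivity
    linarith
  have h2 : nd A i ≤ 7 / 20 := by
    unfold nd
    have h4 : (i : ℝ) ≤ A := by exact_mod_cast hi
    have h5 : (i : ℝ) / (5 * A) ≤ 1 / 5 := by
      rw [div_le_iff₀ (by positivity)]
      linarith
    linarith
  have h0 : 0 < nd A i := by linarith
  have he1 := Real.exp_one_gt_d9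
  have he2 := Real.exp_one_lt_d9
  have h3 : Real.log (nd A i) ≤ -1 := by
    rw [Real.log_le_iff_le_exp h0, Real.exp_neg]
    refine h2.trans ?_
    rw [le_inv_comm₀ (by norm_num) (Real.exp_pos 1)]
    norm_num
    linarith
  have h4 : -2 ≤ Real.log (nd A i) := by
    rw [Real.le_log_iff_exp_le h0]
    refine le_trans ?_ h1
    have h5 : Real.exp (-2) = (Real.exp 1 * Real.exp 1)⁻¹ := by
      rw [← Real.exp_add, ← Real.exp_neg]
      norm_num
    rw [h5, inv_le_comm₀ (by positivity) (by norm_num)]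
    nlinarith
  exact ⟨h1, h2, by linarith, by linarith⟩

end PR9
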