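import Pool.Agent.LibPR9.A3
import Pool.Agent.LibPR9.B4

set_option autoImplicit false
open Filter Topology Polynomial Finset
open Pool.Agent.LibTri77 Pool.Agent.LibTri68P

namespace PR9

/-- ROW B5a. `Fu ∘ uu` is holomorphic on a ball of radius `> 1` and bounded on the unit circle.
PLAN. `re (uu B v) = T (re v - 1) - 1/10 < 0` for `‖v‖ < 1 + 1/(20 T)`; there `exp (uu B v)` lies in the unit ball, so `lg ∘ uu` is
differentiable (`hh.diff`). For `‖v‖ ≤ 1`: `re (uu B v) ≤ -1/10`, `‖uu B v‖ ≤ 2T + 1/10 ≤ 201 B^2`, so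
`‖lg‖ ≤ C1 (1 + 201 B^2) ≤ 202 C1 B^2`, `(202 C1 B^2)^b ≤ (202 C1 B^2)^B`; `‖p_b(exp u)‖ ≤ 110^A S` (row B4). -/
theorem Fu_disc (K : ℕ) (h : ℂ → ℂ) (hh : Cont K h) (C1 : ℝ) (hC1 : 1 ≤ C1)
    (hl : ∀ u : ℂ, u.re ≤ -1 / 10 → ‖lg K h u‖ ≤ C1 * (1 + ‖u‖)) (A B : ℕ) (hA : 1 ≤ A)
    (hB : 2 ≤ B) (p : ℕ → ℂ[X]) (hp : ∀ b, b < B → (p b).natDegree ≤ A) (S : ℝ)
    (hS : ∀ b, b < B → ∀ i, i ≤ A → ‖(p b).eval ((nd A i : ℝ) : ℂ)‖ ≤ S) :
    DifferentiableOn ℂ (fun v => Fu K h B p (uu B v)) (Metric.ball 0 (1 + 1 / (20 * TB B))) ∧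
    ∀ v : ℂ, ‖v‖ = 1 →
      ‖Fu K h B p (uu B v)‖ ≤ B * (110 ^ A * S * (202 * C1 * (B : ℝ) ^ 2) ^ B) := by
  have hB0 : (2 : ℝ) ≤ B := by exact_mod_cast hB
  have hT : 0 < TB B := by
    unfold TB
    positivity
  have hre : ∀ v : ℂ, (uu B v).re = TB B * (v.re - 1) - 1 / 10 := by
    intro v
    unfold uu
    have h1 : ((1 / 10 : ℂ)).re = 1 / 10 := by
      rw [show (1 / 10 : ℂ) = ((1 / 10 : ℝ) : ℂ) by push_cast; ring, Complex.ofReal_re]
    rw [Complex.sub_re, Complex.re_ofReal_mul, Complex.sub_re, Complex.one_re, h1]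
  constructor
  · have huu : Differentiable ℂ (uu B) := by
      unfold uu
      fun_prop
    have hexp : Differentiable ℂ (fun v => Complex.exp (uu B v)) := huu.cexp
    have hmaps : Set.MapsTo (fun v => Complex.exp (uu B v)) (Metric.ball 0 (1 + 1 / (20 * TB B)))
        (Metric.ball 0 1) := by
      intro v hv
      rw [mem_ball_zero_iff] at hv ⊢
      rw [Complex.norm_exp, hre]
      have h1 : v.re < 1 + 1 / (20 * TB B) := lt_of_le_of_lt (Complex.re_le_norm v) hv
      have h2 : TB B * (v.re - 1) < 1 / 20 := by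
        have h3 : TB B * (v.re - 1) < TB B * (1 / (20 * TB B)) :=
          mul_lt_mul_of_pos_left (by linarith) hT
        have h4 : TB B * (1 / (20 * TB B)) = 1 / 20 := by
          field_simp
        linarith
      rw [Real.exp_lt_one_iff]
      linarith
    have hh1 : DifferentiableOn ℂ (fun v => h (Complex.exp (uu B v)))
        (Metric.ball 0 (1 + 1 / (20 * TB B))) := hh.diff.comp hexp.differentiableOn hmaps
    have hlg : DifferentiableOn ℂ (fun v => lg K h (uu B v))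
        (Metric.ball 0 (1 + 1 / (20 * TB B))) := by
      unfold lg
      exact ((((hexp.pow (K - 1)).const_mul _).mul huu).differentiableOn).add hh1
    unfold Fu
    refine DifferentiableOn.fun_sum fun b _ => ?_
    exact (((p b).differentiable.comp hexp).differentiableOn).mul (hlg.pow b)
  · intro v hv
    have hre1 : (uu B v).re ≤ -1 / 10 := by
      rw [hre]
      have h1 : v.re ≤ 1 := (Complex.re_le_norm v).trans hv.le
      nlinarith
    have hnu : ‖uu B v‖ ≤ 201 * (B : ℝ) ^ 2 := by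
      unfold uu
      refine (norm_sub_le _ _).trans ?_
      have h1 : ‖(TB B : ℂ) * (v - 1)‖ ≤ TB B * 2 := by
        rw [norm_mul, Complex.norm_real, Real.norm_eq_abs, abs_of_pos hT]
        refine mul_le_mul_of_nonneg_left ?_ hT.le
        refine (norm_sub_le _ _).trans ?_
        rw [hv, NormOneClass.norm_one]
        norm_num
      have h2 : ‖(1 / 10 : ℂ)‖ = 1 / 10 := by
        rw [show (1 / 10 : ℂ) = ((1 / 10 : ℝ) : ℂ) by push_cast; ring, Complex.norm_real]
        norm_num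
      rw [h2]
      unfold TB at h1 ⊢
      nlinarith
    have hexp : ‖Complex.exp (uu B v)‖ ≤ 1 := by
      rw [Complex.norm_exp, Real.exp_le_one_iff]
      linarith
    have hlg : ‖lg K h (uu B v)‖ ≤ 202 * C1 * (B : ℝ) ^ 2 := by
      refine (hl _ hre1).trans ?_
      have h1 : C1 * (1 + ‖uu B v‖) ≤ C1 * (1 + 201 * (B : ℝ) ^ 2) :=
        mul_le_mul_of_nonneg_left (by linarith) (by linarith)
      refine h1.trans ?_
      have h2 : (1 : ℝ) + 201 * (B : ℝ) ^ 2 ≤ 202 * (B : ℝ) ^ 2 := by nlinarith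
      have h3 := mul_le_mul_of_nonneg_left h2 (show (0 : ℝ) ≤ C1 by linarith)
      refine h3.trans (le_of_eq ?_)
      ring
    have hbase : 1 ≤ 202 * C1 * (B : ℝ) ^ 2 := by
      have h1 : (1 : ℝ) ≤ (B : ℝ) ^ 2 := by nlinarith
      have h2 : (1 : ℝ) ≤ 202 * C1 := by linarith
      nlinarith
    unfold Fu
    refine (norm_sum_le _ _).trans ?_
    have hterm : ∀ b ∈ range B, ‖(p b).eval (Complex.exp (uu B v)) * lg K h (uu B v) ^ b‖ ≤
        110 ^ A * S * (202 * C1 * (B : ℝ) ^ 2) ^ B := by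
      intro b hb
      have hb' := mem_range.1 hb
      have h1 := growth A hA (p b) (hp b hb') S (hS b hb') _ hexp
      rw [norm_mul, norm_pow]
      refine mul_le_mul h1 ?_ (by positivity) ((norm_nonneg _).trans h1)
      calc ‖lg K h (uu B v)‖ ^ b ≤ (202 * C1 * (B : ℝ) ^ 2) ^ b :=
            pow_le_pow_left₀ (norm_nonneg _) hlg b
        _ ≤ (202 * C1 * (B : ℝ) ^ 2) ^ B := pow_le_pow_right₀ hbase hb'.le
    refine (sum_le_sum hterm).trans ?_
    rw [sum_const, card_range, nsmul_eq_mul]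

end PR9
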