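import Pool.Agent.LibPR9.B5a
import Pool.Agent.LibPR9.B1b
import Pool.Agent.LibPR9.B2

set_option autoImplicit false
open Filter Topology Polynomial Finset
open Pool.Agent.LibTri77 Pool.Agent.LibTri68P

namespace PR9

theorem B5b_TB_pos {B : ℕ} (hB : 2 ≤ B) : 0 < TB B := by
  have h1 : (0 : ℝ) < B := by exact_mod_cast (by omega : 0 < B)
  unfold TB
  positivity

theorem B5b_uu {B : ℕ} (hB : 2 ≤ B) (w : ℂ) :
    uu B (1 - (-w - 1 / 10) / (TB B : ℂ)) = w := by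
  have h1 : (TB B : ℂ) ≠ 0 := by exact_mod_cast (B5b_TB_pos hB).ne'
  unfold uu
  field_simp
  ring

theorem B5b_exp {x : ℝ} (h0 : 0 < x) (k : ℕ) :
    Complex.exp (((Real.log x : ℝ) : ℂ) + 2 * Real.pi * Complex.I * k) = (x : ℂ) := by
  rw [Complex.exp_add, ← Complex.ofReal_exp, Real.exp_log h0]
  have h1 : (2 * Real.pi * Complex.I * k : ℂ) = k * (2 * Real.pi * Complex.I) := by ring
  rw [h1, Complex.exp_nat_mul_two_pi_mul_I, mul_one]

theorem B5b_Fu (K : ℕ) (h : ℂ → ℂ) (hh : Cont K h) (B : ℕ) (p : ℕ → ℂ[X]) {x : ℝ} (h0 : 0 < x)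
    (h1 : x < 1) (k : ℕ) :
    Fu K h B p (((Real.log x : ℝ) : ℂ) + 2 * Real.pi * Complex.I * k) =
      ∑ b ∈ range B, (p b).eval (x : ℂ) * (((fK K x : ℝ) : ℂ) +
        k * (2 * Real.pi * Complex.I * (cK K : ℂ) * (x : ℂ) ^ (K - 1))) ^ b := by
  unfold Fu
  rw [B5b_exp h0 k, lg_real K h hh x h0 h1 k]

theorem B5b_s {B : ℕ} {x : ℝ} (h1 : Real.exp (-((B : ℝ) ^ 2)) ≤ x) (h2 : x ≤ 1 / 2) :
    0 < x ∧ 59 / 100 ≤ -Real.log x - 1 / 10 ∧ -Real.log x - 1 / 10 ≤ (B : ℝ) ^ 2 := by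
  have h0 : 0 < x := lt_of_lt_of_le (Real.exp_pos _) h1
  refine ⟨h0, ?_, ?_⟩
  · have h3 : Real.log x ≤ Real.log (1 / 2) := Real.log_le_log h0 h2
    have h4 : Real.log (1 / 2) = -Real.log 2 := by
      rw [one_div, Real.log_inv]
    have h5 := Real.log_two_gt_d9
    rw [h4] at h3
    norm_num at h5 ⊢
    linarith
  · have h3 : -((B : ℝ) ^ 2) ≤ Real.log x := (Real.le_log_iff_exp_le h0).2 h1
    linarith

/-- ROW B5b. Smallness on all sheets. `G = Fu ∘ uu`; the zeros: `a = 1 - s/T`, `s = -(log x) - 1/10`, so `uu B a = log x` and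
`G a = ∑ p_b(x) (fK K x)^b = 0` (`lg_real` with `k = 0`); `s ≥ log 2 - 1/10 ≥ 59/100`, `s ≤ B^2`, `-1 < a < 1`; `x ↦ a` is
injective, so `Z = T.image _` has `T.card` elements. The point `v = 1 - (t - 2πik)/T`, `t = -log x0 - 1/10`:
`uu B v = log x0 + 2πik`; `‖v‖ < 1` (`sheet_in`). `blaschke` with `M` of row B5a, and `bl_factor` for each factor:
`∏ ≤ exp(-1/(1760 B^2))^card`. -/
theorem sheets_small (K : ℕ) (h : ℂ → ℂ) (hh : Cont K h) (C1 : ℝ) (hC1 : 1 ≤ C1)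
    (hl : ∀ u : ℂ, u.re ≤ -1 / 10 → ‖lg K h u‖ ≤ C1 * (1 + ‖u‖)) (A B : ℕ) (hA : 1 ≤ A)
    (hB : 2 ≤ B) (p : ℕ → ℂ[X]) (hp : ∀ b, b < B → (p b).natDegree ≤ A) (S : ℝ)
    (hS : ∀ b, b < B → ∀ i, i ≤ A → ‖(p b).eval ((nd A i : ℝ) : ℂ)‖ ≤ S) (X : Finset ℝ)
    (hX : ∀ x ∈ X, Real.exp (-((B : ℝ) ^ 2)) ≤ x ∧ x ≤ 1 / 2 ∧
      ∑ b ∈ range B, (p b).eval (x : ℂ) * ((fK K x : ℝ) : ℂ) ^ b = 0)
    (i k : ℕ) (hi : i ≤ A) (hk : k < B) :
    ‖∑ b ∈ range B, (p b).eval ((nd A i : ℝ) : ℂ) * (((fK K (nd A i) : ℝ) : ℂ) +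
        k * (2 * Real.pi * Complex.I * (cK K : ℂ) * ((nd A i : ℝ) : ℂ) ^ (K - 1))) ^ b‖ ≤
      B * (110 ^ A * S * (202 * C1 * (B : ℝ) ^ 2) ^ B) *
        Real.exp (-(X.card : ℝ) / (1760 * (B : ℝ) ^ 2)) := by
  classical
  have hT := B5b_TB_pos hB
  have hBr : (2 : ℝ) ≤ B := by exact_mod_cast hB
  obtain ⟨hd, hb⟩ := Fu_disc K h hh C1 hC1 hl A B hA hB p hp S hS
  obtain ⟨hn1, hn2, hn3, hn4⟩ := nd_range A i hA hi
  set x0 := nd A i with hx0
  have hx0p : 0 < x0 := by linarith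
  set f : ℝ → ℝ := fun x => 1 - (-Real.log x - 1 / 10) / TB B with hf
  have hinj : Set.InjOn f (X : Set ℝ) := by
    intro x hx y hy hxy
    have h1 := (B5b_s (hX x hx).1 (hX x hx).2.1).1
    have h2 := (B5b_s (hX y hy).1 (hX y hy).2.1).1
    have h3 : (-Real.log x - 1 / 10) / TB B = (-Real.log y - 1 / 10) / TB B := by
      simp only [hf] at hxy
      linarith
    have h4 : Real.log x = Real.log y := by
      rw [div_left_inj' hT.ne'] at h3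
      linarith
    exact Real.log_injOn_pos (Set.mem_Ioi.2 h1) (Set.mem_Ioi.2 h2) h4
  have hv0 : ((1 : ℂ) - ((((-Real.log x0 - 1 / 10 : ℝ)) : ℂ) - 2 * Real.pi * Complex.I * k) /
      (TB B : ℂ)) = 1 - (-(((Real.log x0 : ℝ) : ℂ) + 2 * Real.pi * Complex.I * k) - 1 / 10) /
      (TB B : ℂ) := by
    push_cast
    ring
  set v : ℂ := (1 : ℂ) - ((((-Real.log x0 - 1 / 10 : ℝ)) : ℂ) - 2 * Real.pi * Complex.I * k) /
      (TB B : ℂ) with hv
  have hv1 : ‖v‖ < 1 := by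
    have h1 := sheet_in B k hB hk (-Real.log x0 - 1 / 10) hn3 hn4
    rw [← hv] at h1
    have h2 : 0 < 1 / TB B := by positivity
    have h3 : ‖v‖ ^ 2 < 1 := by linarith
    nlinarith [norm_nonneg v]
  have hGv : Fu K h B p (uu B v) = ∑ b ∈ range B, (p b).eval (x0 : ℂ) * (((fK K x0 : ℝ) : ℂ) +
        k * (2 * Real.pi * Complex.I * (cK K : ℂ) * (x0 : ℂ) ^ (K - 1))) ^ b := by
    rw [hv0, B5b_uu hB, B5b_Fu K h hh B p hx0p (by linarith) k]
  have hZ : ∀ a ∈ X.image f, -1 < a ∧ a < 1 ∧ Fu K h B p (uu B (a : ℂ)) = 0 := by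
    intro a ha
    rw [Finset.mem_image] at ha
    obtain ⟨x, hx, rfl⟩ := ha
    obtain ⟨h1, h2, h3⟩ := hX x hx
    obtain ⟨h4, h5, h6⟩ := B5b_s h1 h2
    have hTB : TB B = 100 * (B : ℝ) ^ 2 := rfl
    refine ⟨?_, ?_, ?_⟩
    · have h7 : (-Real.log x - 1 / 10) / TB B < 2 := by
        rw [div_lt_iff₀ hT, hTB]
        nlinarith
      simp only [hf]
      linarith
    · have h7 : 0 < (-Real.log x - 1 / 10) / TB B := by
        apply div_pos _ hT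
        linarith
      simp only [hf]
      linarith
    · have h8 : ((f x : ℝ) : ℂ) = 1 - (-(((Real.log x : ℝ) : ℂ) +
          2 * Real.pi * Complex.I * ((0 : ℕ) : ℂ)) - 1 / 10) / (TB B : ℂ) := by
        simp only [hf]
        push_cast
        ring
      rw [h8, B5b_uu hB, B5b_Fu K h hh B p h4 (by linarith) 0]
      rw [← h3]
      apply Finset.sum_congr rfl
      intro b _
      rw [Nat.cast_zero, zero_mul, add_zero]
  have hr : 1 < 1 + 1 / (20 * TB B) := by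
    have : 0 < 1 / (20 * TB B) := by positivity
    linarith
  have hbl := blaschke (fun w => Fu K h B p (uu B w)) (1 + 1 / (20 * TB B)) hr hd
    (B * (110 ^ A * S * (202 * C1 * (B : ℝ) ^ 2) ^ B)) hb (X.image f) hZ v hv1
  have hM0 : 0 ≤ B * (110 ^ A * S * (202 * C1 * (B : ℝ) ^ 2) ^ B) :=
    (norm_nonneg _).trans (hb 1 norm_one)
  simp only [hGv] at hbl
  refine hbl.trans (mul_le_mul_of_nonneg_left ?_ hM0)
  have hprod : ∏ a ∈ X.image f, ‖(v - (a : ℂ)) / (1 - (a : ℂ) * v)‖ ≤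
      ∏ a ∈ X.image f, Real.exp (-1 / (1760 * (B : ℝ) ^ 2)) := by
    apply Finset.prod_le_prod
    · intro a _
      exact norm_nonneg _
    · intro a ha
      rw [Finset.mem_image] at ha
      obtain ⟨x, hx, rfl⟩ := ha
      obtain ⟨h1, h2, -⟩ := hX x hx
      obtain ⟨h4, h5, h6⟩ := B5b_s h1 h2
      exact bl_factor B k hB hk (-Real.log x0 - 1 / 10) (-Real.log x - 1 / 10) hn3 hn4 h5 h6
  refine hprod.trans (le_of_eq ?_)
  rw [Finset.prod_const, Finset.card_image_of_injOn hinj, ← Real.exp_nat_mul]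
  congr 1
  ring

end PR9
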