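import Pool.Agent.LibPR9.A2
import Pool.Agent.LibPR9.B3
import Pool.Agent.LibPR9.B5b

set_option autoImplicit false
open Filter Topology Polynomial Finset
open Pool.Agent.LibTri77 Pool.Agent.LibTri68P

namespace PR9

theorem B5c_le_exp (x : ℝ) : x ≤ Real.exp x := by
  have := Real.add_one_le_exp x
  linarith

theorem B5c_pow_exp {x y : ℝ} (hx : 0 ≤ x) (hxy : x ≤ Real.exp y) (n : ℕ) :
    x ^ n ≤ Real.exp (n * y) := by
  rw [Real.exp_nat_mul]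
  exact pow_le_pow_left₀ hx hxy n

/-- the numerical part -/
theorem B5c_num {C1 γ Γ D S : ℝ} (hC1 : 1 ≤ C1) (hγ : 0 < γ) (hΓ : 0 ≤ Γ)
    (hD : (1 + 2 * Γ) / γ ≤ D) (hD1 : 1 ≤ D) (hS : 0 < S) {A B n : ℕ} (hB : 2 ≤ B)
    (h : S ≤ B * ((1 + Γ + B * Γ) / γ) ^ (B - 1) *
      (B * (110 ^ A * S * (202 * C1 * (B : ℝ) ^ 2) ^ B) *
        Real.exp (-(n : ℝ) / (1760 * (B : ℝ) ^ 2)))) :
    (n : ℝ) ≤ 1760 * (115 + D + 202 * C1) * (B : ℝ) ^ 2 * (A + (B : ℝ) ^ 2) := by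
  have hBr : (2 : ℝ) ≤ B := by exact_mod_cast hB
  have h1 : (B : ℝ) ≤ Real.exp B := B5c_le_exp _
  have hR0 : 0 ≤ (1 + Γ + B * Γ) / γ := by positivity
  have hR : (1 + Γ + B * Γ) / γ ≤ Real.exp (D + B) := by
    have h2 : (1 + Γ + B * Γ) / γ ≤ (1 + 2 * Γ) / γ * B := by
      rw [div_mul_eq_mul_div]
      apply div_le_div_of_nonneg_right _ hγ.le
      nlinarith
    calc (1 + Γ + B * Γ) / γ ≤ (1 + 2 * Γ) / γ * B := h2
      _ ≤ D * B := by
          apply mul_le_mul_of_nonneg_right hD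
          linarith
      _ ≤ Real.exp D * Real.exp B :=
          mul_le_mul (B5c_le_exp D) h1 (by linarith) (Real.exp_pos _).le
      _ = Real.exp (D + B) := (Real.exp_add _ _).symm
  have h2 : ((1 + Γ + B * Γ) / γ) ^ (B - 1) ≤ Real.exp (B * (D + B)) := by
    refine (B5c_pow_exp hR0 hR (B - 1)).trans (Real.exp_le_exp.2 ?_)
    apply mul_le_mul_of_nonneg_right
    · exact_mod_cast Nat.sub_le B 1
    · linarith
  have h3 : (110 : ℝ) ^ A ≤ Real.exp (A * 110) := B5c_pow_exp (by norm_num) (B5c_le_exp _) A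
  have h4 : (202 * C1 * (B : ℝ) ^ 2) ^ B ≤ Real.exp (B * (202 * C1 + 2 * B)) := by
    apply B5c_pow_exp (by positivity)
    calc 202 * C1 * (B : ℝ) ^ 2 ≤ Real.exp (202 * C1) * Real.exp ((2 : ℕ) * B) := by
          apply mul_le_mul (B5c_le_exp _) (B5c_pow_exp (by linarith) h1 2) (by positivity)
            (Real.exp_pos _).le
      _ = Real.exp (202 * C1 + 2 * B) := by
          rw [← Real.exp_add]
          norm_num
  set w := Real.exp (-(n : ℝ) / (1760 * (B : ℝ) ^ 2)) with hw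
  have hw0 : 0 < w := Real.exp_pos _
  have h5 : B * ((1 + Γ + B * Γ) / γ) ^ (B - 1) *
      (B * (110 ^ A * S * (202 * C1 * (B : ℝ) ^ 2) ^ B) * w) ≤
      Real.exp B * Real.exp (B * (D + B)) *
        (Real.exp B * (Real.exp (A * 110) * S * Real.exp (B * (202 * C1 + 2 * B))) * w) := by
    gcongr
  have h6 : Real.exp B * Real.exp (B * (D + B)) *
        (Real.exp B * (Real.exp (A * 110) * S * Real.exp (B * (202 * C1 + 2 * B))) * w) =
      S * Real.exp (B + B * (D + B) + B + A * 110 + B * (202 * C1 + 2 * B) +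
        -(n : ℝ) / (1760 * (B : ℝ) ^ 2)) := by
    rw [hw, Real.exp_add, Real.exp_add, Real.exp_add, Real.exp_add, Real.exp_add]
    ring
  have h7 : S * 1 ≤ S * Real.exp (B + B * (D + B) + B + A * 110 + B * (202 * C1 + 2 * B) +
        -(n : ℝ) / (1760 * (B : ℝ) ^ 2)) := by
    rw [mul_one, ← h6]
    exact h.trans h5
  have h8 : 0 ≤ B + B * (D + B) + B + A * 110 + B * (202 * C1 + 2 * B) +
        -(n : ℝ) / (1760 * (B : ℝ) ^ 2) := by
    apply Real.exp_le_exp.1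
    rw [Real.exp_zero]
    exact le_of_mul_le_mul_left h7 hS
  have h9 : (n : ℝ) / (1760 * (B : ℝ) ^ 2) ≤
      B + B * (D + B) + B + A * 110 + B * (202 * C1 + 2 * B) := by
    rw [neg_div] at h8
    linarith
  rw [div_le_iff₀ (by positivity)] at h9
  refine h9.trans ?_
  have hA0 : (0 : ℝ) ≤ A := Nat.cast_nonneg A
  have h10 : B + B * (D + B) + B + A * 110 + B * (202 * C1 + 2 * B) ≤
      (115 + D + 202 * C1) * (A + (B : ℝ) ^ 2) := by
    have h11 : (B : ℝ) ≤ (B : ℝ) ^ 2 := by nlinarith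
    have h12 : B * D ≤ (B : ℝ) ^ 2 * D := mul_le_mul_of_nonneg_right h11 (by linarith)
    have h13 : B * (202 * C1) ≤ (B : ℝ) ^ 2 * (202 * C1) :=
      mul_le_mul_of_nonneg_right h11 (by linarith)
    have h14 : 0 ≤ A * D := by positivity
    have h15 : 0 ≤ A * C1 := by positivity
    nlinarith
  calc (B + B * (D + B) + B + A * 110 + B * (202 * C1 + 2 * B)) * (1760 * (B : ℝ) ^ 2)
      ≤ ((115 + D + 202 * C1) * (A + (B : ℝ) ^ 2)) * (1760 * (B : ℝ) ^ 2) :=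
        mul_le_mul_of_nonneg_right h10 (by positivity)
    _ = 1760 * (115 + D + 202 * C1) * (B : ℝ) ^ 2 * (A + (B : ℝ) ^ 2) := by ring

/-- ROW B5c. THE ZERO ESTIMATE. Fix `h` (row A2), `C1` (row A3), `γ = 2π |cK K| (3/20)^(K-1) > 0`, `Γ = 2 + 2π |cK K|`. Let `S` be the maximum of
`‖p_b(nd A i)‖`, `b < B`, `i ≤ A` (`Finset.exists_max_image` or sup'); `S > 0`, otherwise all `p_b = 0` (`growth_zero`).
`extract` at the node where the maximum is attained (`f = fK K x`, `g = 2πi cK x^(K-1)`, `ε` = the bound of row B5b):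
`S ≤ B ((1 + Γ + BΓ)/γ)^(B-1) B 110^A S (202 C1 B^2)^B exp(-n/(1760 B^2))`, so
`n/(1760 B^2) ≤ 2 log B + A log 110 + B log (202 C1 B^2) + B log (max 1 ((1+2Γ) B/γ)) ≤ C' (A + B^2)` (`log B ≤ B`). -/
theorem zero_est (K : ℕ) (hK : 2 ≤ K) : ∃ C : ℝ, 0 < C ∧ ∀ (A B : ℕ), 1 ≤ A → 2 ≤ B →
    ∀ p : ℕ → ℂ[X], (∀ b, b < B → (p b).natDegree ≤ A) → (∃ b, b < B ∧ p b ≠ 0) →
    ∀ X : Finset ℝ, (∀ x ∈ X, Real.exp (-((B : ℝ) ^ 2)) ≤ x ∧ x ≤ 1 / 2 ∧
      ∑ b ∈ range B, (p b).eval (x : ℂ) * ((fK K x : ℝ) : ℂ) ^ b = 0) →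
    (X.card : ℝ) ≤ C * (B : ℝ) ^ 2 * (A + (B : ℝ) ^ 2) := by
  obtain ⟨h, hh⟩ := exists_cont K hK
  obtain ⟨C1, hC1, hl⟩ := lg_bound K h hh
  have hc : 0 < |cK K| := abs_pos.2 (cK_ne K)
  have hπ := Real.pi_pos
  set γ : ℝ := 2 * Real.pi * |cK K| * (3 / 20) ^ (K - 1) with hγ
  set Γ : ℝ := 2 + 2 * Real.pi * |cK K| with hΓ
  set D : ℝ := max 1 ((1 + 2 * Γ) / γ) with hD
  have hγ0 : 0 < γ := by positivity
  have hΓ0 : 0 ≤ Γ := by positivity
  have hD1 : 1 ≤ D := le_max_left _ _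
  refine ⟨1760 * (115 + D + 202 * C1), by positivity, ?_⟩
  rintro A B hA hB p hp ⟨b1, hb1, hpb1⟩ X hX
  obtain ⟨⟨b0, i0⟩, hm, hmax⟩ := Finset.exists_max_image (range B ×ˢ range (A + 1))
    (fun q : ℕ × ℕ => ‖(p q.1).eval ((nd A q.2 : ℝ) : ℂ)‖)
    ⟨(0, 0), Finset.mem_product.2 ⟨Finset.mem_range.2 (by omega), Finset.mem_range.2 (by omega)⟩⟩
  rw [Finset.mem_product, Finset.mem_range, Finset.mem_range] at hm
  have hb0 : b0 < B := hm.1
  have hi0 : i0 ≤ A := Nat.lt_succ_iff.1 hm.2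
  set S : ℝ := ‖(p b0).eval ((nd A i0 : ℝ) : ℂ)‖ with hS
  have hSall : ∀ b, b < B → ∀ i, i ≤ A → ‖(p b).eval ((nd A i : ℝ) : ℂ)‖ ≤ S := fun b hb i hi =>
    hmax (b, i) (Finset.mem_product.2 ⟨Finset.mem_range.2 hb, Finset.mem_range.2 (by omega)⟩)
  have hS0 : 0 < S := by
    by_contra hneg
    apply hpb1
    apply growth_zero A hA (p b1) (hp b1 hb1)
    intro i hi
    have h1 := hSall b1 hb1 i hi
    exact norm_le_zero_iff.1 (h1.trans (not_lt.1 hneg))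
  obtain ⟨hn1, hn2, -, -⟩ := nd_range A i0 hA hi0
  set x0 := nd A i0 with hx0
  have hx00 : 0 < x0 := by linarith
  have hgn : ‖2 * Real.pi * Complex.I * (cK K : ℂ) * (x0 : ℂ) ^ (K - 1)‖ =
      2 * Real.pi * |cK K| * x0 ^ (K - 1) := by
    rw [norm_mul, norm_mul, norm_mul, norm_mul, norm_pow, Complex.norm_I, Complex.norm_real,
      Complex.norm_real, Complex.norm_real, Real.norm_eq_abs, Real.norm_eq_abs, Real.norm_eq_abs,
      abs_of_pos hπ, abs_of_pos hx00]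
    norm_num
  have hg1 : γ ≤ ‖2 * Real.pi * Complex.I * (cK K : ℂ) * (x0 : ℂ) ^ (K - 1)‖ := by
    rw [hgn, hγ]
    gcongr
  have hg2 : ‖2 * Real.pi * Complex.I * (cK K : ℂ) * (x0 : ℂ) ^ (K - 1)‖ ≤ Γ := by
    rw [hgn, hΓ]
    have h1 : x0 ^ (K - 1) ≤ 1 := pow_le_one₀ hx00.le (by linarith)
    have h2 : 2 * Real.pi * |cK K| * x0 ^ (K - 1) ≤ 2 * Real.pi * |cK K| * 1 :=
      mul_le_mul_of_nonneg_left h1 (by positivity)
    linarith
  have hf1 : ‖((fK K x0 : ℝ) : ℂ)‖ ≤ Γ := by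
    rw [Complex.norm_real, Real.norm_eq_abs]
    have h1 := fK_bound K hK x0
    have h2 : 0 ≤ 2 * Real.pi * |cK K| := by positivity
    linarith
  have hext := extract B (fun b => (p b).eval (x0 : ℂ)) ((fK K x0 : ℝ) : ℂ)
    (2 * Real.pi * Complex.I * (cK K : ℂ) * (x0 : ℂ) ^ (K - 1))
    (B * (110 ^ A * S * (202 * C1 * (B : ℝ) ^ 2) ^ B) *
        Real.exp (-(X.card : ℝ) / (1760 * (B : ℝ) ^ 2))) γ Γ hγ0 hg1 hf1 hg2
    (fun k hk => sheets_small K h hh C1 hC1 hl A B hA hB p hp S hSall X hX i0 k hi0 hk) b0 hb0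
  exact B5c_num hC1 hγ0 hΓ0 (le_max_right _ _) hD1 hS0 hB hext

end PR9
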