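import Pool.Agent.LibPR9.A2

set_option autoImplicit false
open Filter Topology Polynomial Finset
open Pool.Agent.LibTri77 Pool.Agent.LibTri68P

namespace PR9

theorem C1_bd (K : ℕ) (hK : 2 ≤ K) {h : ℂ → ℂ} (hh : Cont K h) : ∃ Cf : ℝ, 1 ≤ Cf ∧
    ∀ z : ℂ, 0 < z.re → ‖z‖ ≤ 3 / 4 →
      ‖(cK K : ℂ) * z ^ (K - 1) * Complex.log z + h z‖ ≤ Cf := by
  have hc : ContinuousOn h (Metric.closedBall 0 (3 / 4)) :=
    hh.diff.continuousOn.mono (Metric.closedBall_subset_ball (by norm_num))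
  obtain ⟨C, hC⟩ := (isCompact_closedBall (0 : ℂ) (3 / 4)).exists_bound_of_continuousOn hc
  refine ⟨1 + |cK K| * 5 + |C|, ?_, ?_⟩
  · have h1 : 0 ≤ |cK K| * 5 := by positivity
    have h2 := abs_nonneg C
    linarith
  intro z hz hz2
  have h0 : z ≠ 0 := by
    rintro rfl
    simp at hz
  have hz0 : 0 < ‖z‖ := norm_pos_iff.2 h0
  have h1 : ‖h z‖ ≤ |C| := by
    refine (hC z ?_).trans (le_abs_self C)
    rw [Metric.mem_closedBall, dist_zero_right]
    exact hz2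
  have h2 : ‖Complex.log z‖ ≤ |Real.log ‖z‖| + 4 := by
    refine (Complex.norm_le_abs_re_add_abs_im _).trans ?_
    rw [Complex.log_re, Complex.log_im]
    have := Complex.abs_arg_le_pi z
    have := Real.pi_le_four
    linarith
  have h3 : |Real.log ‖z‖| ≤ ‖z‖⁻¹ - 1 := by
    have h4 := Real.one_sub_inv_le_log_of_pos hz0
    have h5 : Real.log ‖z‖ ≤ 0 := Real.log_nonpos hz0.le (by linarith)
    rw [abs_of_nonpos h5]
    linarith
  have h4 : ‖z ^ (K - 1)‖ ≤ ‖z‖ := by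
    rw [norm_pow]
    calc ‖z‖ ^ (K - 1) ≤ ‖z‖ ^ 1 := pow_le_pow_of_le_one hz0.le (by linarith) (by omega)
      _ = ‖z‖ := pow_one _
  have h5 : ‖z ^ (K - 1)‖ * ‖Complex.log z‖ ≤ 5 := by
    have h6 : ‖z ^ (K - 1)‖ * ‖Complex.log z‖ ≤ ‖z‖ * (‖z‖⁻¹ - 1 + 4) :=
      mul_le_mul h4 (by linarith) (norm_nonneg _) hz0.le
    refine h6.trans ?_
    have h7 : ‖z‖ * (‖z‖⁻¹ - 1 + 4) = 1 + 3 * ‖z‖ := by
      field_simp
      ring
    rw [h7]
    linarith
  calc ‖(cK K : ℂ) * z ^ (K - 1) * Complex.log z + h z‖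
      ≤ ‖(cK K : ℂ) * z ^ (K - 1) * Complex.log z‖ + ‖h z‖ := norm_add_le _ _
    _ = |cK K| * (‖z ^ (K - 1)‖ * ‖Complex.log z‖) + ‖h z‖ := by
        rw [norm_mul, norm_mul, Complex.norm_real, Real.norm_eq_abs, mul_assoc]
    _ ≤ |cK K| * 5 + |C| := by
        have := mul_le_mul_of_nonneg_left h5 (abs_nonneg (cK K))
        linarith
    _ ≤ 1 + |cK K| * 5 + |C| := by linarith

/-- ROW C1. The derivatives of `t^a fK(t)^b` (Cauchy).
PLAN. `h` of row A2; `F z = cK z^(K-1) log z + h z` (`Complex.log`) is holomorphic on `Ω = {re z > 0} ∩ ball 0 1` and bounded by a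
constant `Cf` on `Ω ∩ {‖z‖ ≤ 3/4}` (`‖z^(K-1) log z‖ ≤ ‖z‖ (|log ‖z‖| + π/2) ≤ 1 + 2`, `K - 1 ≥ 1`, `Real.log` bound
`x |log x| ≤ 1`; `h` bounded on the compact ball). `φ z = z^a F z^b`. `D n t = (iteratedDeriv n φ t).re`. On `(0,1)`: `F t = fK K t`
(`Complex.ofReal_log`), so `D 0 t = t^a fK(t)^b`; `Chain` from `HasDerivAt.real_of_complex` and `iteratedDeriv_succ` (φ is analytic on
the open set `Ω`, all iterated derivatives are differentiable there). Bound: the closed ball of centre `t` and radius `ξ/2 ≤ t/2`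
lies in `Ω ∩ {‖z‖ ≤ 3/4}`, `‖φ‖ ≤ Cf^b` there: Cauchy estimate `Complex.norm_iteratedDeriv_le_of_forall_mem_sphere_norm_le`. -/
theorem chain_phi (K : ℕ) (hK : 2 ≤ K) : ∃ Cf : ℝ, 1 ≤ Cf ∧ ∀ a b : ℕ, ∃ D : ℕ → ℝ → ℝ,
    Chain D 0 1 ∧ (∀ t : ℝ, 0 < t → t < 1 → D 0 t = t ^ a * fK K t ^ b) ∧
    ∀ (n : ℕ) (ξ t : ℝ), 0 < ξ → ξ ≤ t → t ≤ 1 / 2 →
      |D n t| ≤ (n.factorial : ℝ) * (Cf ^ b / (ξ / 2) ^ n) := by
  obtain ⟨h, hh⟩ := exists_cont K hK
  obtain ⟨Cf, hCf1, hCf⟩ := C1_bd K hK hh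
  refine ⟨Cf, hCf1, fun a b => ?_⟩
  set F : ℂ → ℂ := fun z => (cK K : ℂ) * z ^ (K - 1) * Complex.log z + h z with hF
  set φ : ℂ → ℂ := fun z => z ^ a * F z ^ b with hφ
  set Ω : Set ℂ := {z | 0 < z.re} ∩ Metric.ball 0 1 with hΩ
  have hΩo : IsOpen Ω := (isOpen_lt continuous_const Complex.continuous_re).inter Metric.isOpen_ball
  have hFd : DifferentiableOn ℂ F Ω := by
    refine DifferentiableOn.add ?_ (hh.diff.mono Set.inter_subset_right)
    refine DifferentiableOn.mul ?_ ?_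
    · exact (differentiableOn_const _).mul (differentiableOn_id.pow _)
    · intro z hz
      exact (Complex.differentiableAt_log (Or.inl hz.1)).differentiableWithinAt
  have hφd : DifferentiableOn ℂ φ Ω := (differentiableOn_id.pow _).mul (hFd.pow _)
  have hφa : AnalyticOnNhd ℂ φ Ω := hφd.analyticOnNhd hΩo
  have hit : ∀ n, AnalyticOnNhd ℂ (iteratedDeriv n φ) Ω := by
    intro n
    induction n with
    | zero => rwa [iteratedDeriv_zero]
    | succ n ih =>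
      rw [iteratedDeriv_succ]
      exact ih.deriv
  have hmem : ∀ t : ℝ, 0 < t → t < 1 → (t : ℂ) ∈ Ω := by
    intro t h0 h1
    refine ⟨?_, ?_⟩
    · show 0 < (t : ℂ).re
      rwa [Complex.ofReal_re]
    · rw [Metric.mem_ball, dist_zero_right, Complex.norm_real, Real.norm_eq_abs, abs_of_pos h0]
      exact h1
  refine ⟨fun n t => (iteratedDeriv n φ (t : ℂ)).re, ?_, ?_, ?_⟩
  · intro n t h0 h1
    have h2 : HasDerivAt (iteratedDeriv n φ) (iteratedDeriv (n + 1) φ (t : ℂ)) (t : ℂ) := by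
      rw [iteratedDeriv_succ]
      exact ((hit n) _ (hmem t h0 h1)).differentiableAt.hasDerivAt
    exact h2.real_of_complex
  · intro t h0 h1
    have h2 : F (t : ℂ) = ((fK K t : ℝ) : ℂ) := by
      rw [hh.eq t h0 h1, Complex.ofReal_log h0.le]
    show (iteratedDeriv 0 φ (t : ℂ)).re = t ^ a * fK K t ^ b
    rw [iteratedDeriv_zero]
    show ((t : ℂ) ^ a * F (t : ℂ) ^ b).re = t ^ a * fK K t ^ b
    rw [h2, ← Complex.ofReal_pow, ← Complex.ofReal_pow, ← Complex.ofReal_mul, Complex.ofReal_re]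
  · intro n ξ t hξ hξt ht
    have ht0 : 0 < t := by linarith
    have hR : 0 < ξ / 2 := by linarith
    have hball : ∀ z ∈ Metric.closedBall (t : ℂ) (ξ / 2), 0 < z.re ∧ ‖z‖ ≤ 3 / 4 := by
      intro z hz
      rw [Metric.mem_closedBall, dist_eq_norm] at hz
      have h1 : |z.re - t| ≤ ξ / 2 := by
        have h2 := Complex.abs_re_le_norm (z - (t : ℂ))
        rw [Complex.sub_re, Complex.ofReal_re] at h2
        exact h2.trans hz
      have h3 : ‖z‖ ≤ ‖z - (t : ℂ)‖ + ‖(t : ℂ)‖ := by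
        have := norm_add_le (z - (t : ℂ)) (t : ℂ)
        rwa [sub_add_cancel] at this
      rw [Complex.norm_real, Real.norm_eq_abs, abs_of_pos ht0] at h3
      rw [abs_le] at h1
      constructor
      · linarith
      · linarith
    have hsub : Metric.closedBall (t : ℂ) (ξ / 2) ⊆ Ω := by
      intro z hz
      obtain ⟨h1, h2⟩ := hball z hz
      refine ⟨h1, ?_⟩
      rw [Metric.mem_ball, dist_zero_right]
      linarith
    have h1 : ‖iteratedDeriv n φ (t : ℂ)‖ ≤ n.factorial * Cf ^ b / (ξ / 2) ^ n := by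
      refine Complex.norm_iteratedDeriv_le_of_forall_mem_sphere_norm_le n hR
        (hφd.diffContOnCl_ball hsub) ?_
      intro z hz
      obtain ⟨h1, h2⟩ := hball z (Metric.sphere_subset_closedBall hz)
      show ‖z ^ a * F z ^ b‖ ≤ Cf ^ b
      rw [norm_mul, norm_pow, norm_pow]
      have h3 : ‖z‖ ^ a ≤ 1 := pow_le_one₀ (norm_nonneg _) (by linarith)
      have h4 : ‖F z‖ ^ b ≤ Cf ^ b := pow_le_pow_left₀ (norm_nonneg _) (hCf z h1 h2) b
      calc ‖z‖ ^ a * ‖F z‖ ^ b ≤ 1 * Cf ^ b :=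
            mul_le_mul h3 h4 (by positivity) zero_le_one
        _ = Cf ^ b := one_mul _
    calc |(iteratedDeriv n φ (t : ℂ)).re| ≤ ‖iteratedDeriv n φ (t : ℂ)‖ :=
          Complex.abs_re_le_norm _
      _ ≤ n.factorial * Cf ^ b / (ξ / 2) ^ n := h1
      _ = (n.factorial : ℝ) * (Cf ^ b / (ξ / 2) ^ n) := by rw [mul_div_assoc]

end PR9
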