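import Pool.Agent.LibPR9.Defs

set_option autoImplicit false
open Filter Topology Polynomial Finset
open Pool.Agent.LibTri77 Pool.Agent.LibTri68P

namespace PR9

private lemma C2_lt (N : ℕ) (x : ℕ → ℝ) (hx : ∀ i, i + 1 < N → x i < x (i + 1)) (a b : ℕ)
    (hab : a < b) (hb : b < N) : x a < x b := by
  obtain ⟨k, rfl⟩ : ∃ k, b = a + 1 + k := ⟨b - (a + 1), by omega⟩
  clear hab
  induction k with
  | zero => exact hx a (by omega)
  | succ k ih => exact (ih (by omega)).trans (hx (a + 1 + k) (by omega))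

private lemma C2_le (N : ℕ) (x : ℕ → ℝ) (hx : ∀ i, i + 1 < N → x i < x (i + 1)) (a b : ℕ)
    (hab : a ≤ b) (hb : b < N) : x a ≤ x b := by
  rcases Nat.lt_or_eq_of_le hab with h | h
  · exact (C2_lt N x hx a b h hb).le
  · rw [h]

private lemma C2_nw_zero (x : ℕ → ℝ) (s r : ℕ) (h : r < s) : nw x s (x r) = 0 := by
  unfold nw
  exact Finset.prod_eq_zero (Finset.mem_range.2 h) (sub_self _)

private lemma C2_detT (N : ℕ) (x : ℕ → ℝ) (W : ℝ)
    (hW : ∀ i j, i < j → j < N → 0 ≤ x j - x i ∧ x j - x i ≤ W) :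
    |(Matrix.of fun r s : Fin N => nw x s (x r)).det| ≤ W ^ (N * (N - 1) / 2) := by
  have h1 : (Matrix.of fun r s : Fin N => nw x s (x r)).det = ∏ r : Fin N, nw x r (x r) := by
    refine Matrix.det_of_isLowerTriangular _ ?_
    intro i j hij
    exact C2_nw_zero x _ _ hij
  rw [h1, Finset.abs_prod]
  have h2 : ∀ r : Fin N, |nw x r (x r)| ≤ W ^ (r : ℕ) := by
    intro r
    unfold nw
    rw [Finset.abs_prod]
    have h3 : ∏ b ∈ range (r : ℕ), |x r - x b| ≤ ∏ b ∈ range (r : ℕ), W := by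
      refine Finset.prod_le_prod (fun _ _ => abs_nonneg _) fun b hb => ?_
      have := hW b r (Finset.mem_range.1 hb) r.2
      rw [abs_of_nonneg this.1]
      exact this.2
    simpa using h3
  calc ∏ r : Fin N, |nw x r (x r)| ≤ ∏ r : Fin N, W ^ (r : ℕ) :=
        Finset.prod_le_prod (fun _ _ => abs_nonneg _) fun r _ => h2 r
    _ = ∏ r ∈ range N, W ^ r := Fin.prod_univ_eq_prod_range (fun r => W ^ r) N
    _ = W ^ (N * (N - 1) / 2) := by
        rw [Finset.prod_pow_eq_pow_sum, Finset.sum_range_id]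

private lemma C2_detE (k : ℕ) (E : Matrix (Fin k) (Fin k) ℝ) (α : ℝ) (u : ℕ → ℝ)
    (hb : ∀ s l : Fin k, |E s l| ≤ α * u s) :
    |E.det| ≤ (k.factorial : ℝ) * α ^ k * (∏ s ∈ range k, u s) := by
  rw [Matrix.det_apply]
  have h1 : ∀ σ : Equiv.Perm (Fin k), |Equiv.Perm.sign σ • ∏ i, E (σ i) i| ≤
      α ^ k * (∏ s ∈ range k, u s) := by
    intro σ
    have h2 : |Equiv.Perm.sign σ • ∏ i, E (σ i) i| = ∏ i, |E (σ i) i| := by
      rw [← Finset.abs_prod]
      rcases Int.units_eq_one_or (Equiv.Perm.sign σ) with h | h <;> simp [h]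
    rw [h2]
    calc ∏ i, |E (σ i) i| ≤ ∏ i : Fin k, (α * u (σ i)) :=
          Finset.prod_le_prod (fun _ _ => abs_nonneg _) fun i _ => hb _ _
      _ = α ^ k * (∏ s ∈ range k, u s) := by
          rw [Finset.prod_mul_distrib, Finset.prod_const,
            Finset.card_univ, Fintype.card_fin,
            Equiv.prod_comp σ (fun i : Fin k => u (i : ℕ)),
            Fin.prod_univ_eq_prod_range u k]
  calc |∑ σ : Equiv.Perm (Fin k), Equiv.Perm.sign σ • ∏ i, E (σ i) i|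
      ≤ ∑ σ : Equiv.Perm (Fin k), |Equiv.Perm.sign σ • ∏ i, E (σ i) i| :=
        Finset.abs_sum_le_sum_abs _ _
    _ ≤ ∑ σ : Equiv.Perm (Fin k), α ^ k * (∏ s ∈ range k, u s) :=
        Finset.sum_le_sum fun σ _ => h1 σ
    _ = _ := by
        rw [Finset.sum_const, Finset.card_univ, Fintype.card_perm, Fintype.card_fin, nsmul_eq_mul]
        ring

/-- ROW C2. The determinant is small.
PLAN. See LibTri68P/P12.lean (proved; case `m = 0`). `newton_exists` and `newton_mvt` (LibTri68P/P10.lean):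
`D j 0 (x i) = ∑_{s<N} c_j(s) nw x s (x i)` and `c_j(s) = D j s ζ / s!` for some `x 0 ≤ ζ ≤ x s`, so `|c_j(s)| ≤ M/(ξ/2)^s`.
The matrix is `T * E`, `T i s = nw x s (x i)` lower triangular, `|T s s| ≤ (ξ/5)^s` (see P12_detT), `E s j = c_j(s)`,
`|det E| ≤ N! ∏_s M/(ξ/2)^s` (see P12_detE). `∑_{s<N} s = N(N-1)/2` (`Finset.sum_range_id`), `(ξ/5)/(ξ/2) = 2/5`. -/
theorem det_up (N : ℕ) (hN : 1 ≤ N) (D : Fin N → ℕ → ℝ → ℝ) (hD : ∀ j, Chain (D j) 0 1)
    (x : ℕ → ℝ) (hx : ∀ i, i + 1 < N → x i < x (i + 1)) (ξ : ℝ) (h0 : 0 < ξ) (hx0 : ξ ≤ x 0)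
    (hxN : x (N - 1) ≤ 6 / 5 * ξ) (hhalf : 6 / 5 * ξ ≤ 1 / 2) (M : ℝ) (hM : 0 ≤ M)
    (hb : ∀ (j : Fin N) (n : ℕ) (t : ℝ), ξ ≤ t → t ≤ 1 / 2 →
      |D j n t| ≤ (n.factorial : ℝ) * (M / (ξ / 2) ^ n)) :
    |(Matrix.of fun i j : Fin N => D j 0 (x i)).det| ≤
      (N.factorial : ℝ) * M ^ N * (2 / 5) ^ (N * (N - 1) / 2) := by
  have h1 : ∀ j : Fin N, ∃ c : ℕ → ℝ,
      ∀ i, i < N → D j 0 (x i) = ∑ s ∈ range N, c s * nw x s (x i) := fun j =>
    newton_exists N x hx (fun i => D j 0 (x i))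
  choose c hc using h1
  have hcb : ∀ (s j : Fin N), |c j s| ≤ M * (1 / (ξ / 2)) ^ (s : ℕ) := by
    intro s j
    obtain ⟨ζ, hζ1, hζ2, hζ⟩ := newton_mvt (D j) 0 1 (hD j) N s s.2 x hx (by linarith)
      (by linarith) (c j) (hc j)
    have hxs : x s ≤ x (N - 1) := C2_le N x hx s (N - 1) (by have := s.2; omega) (by omega)
    have h2 := hb j s ζ (by linarith) (by linarith)
    have hf : (0 : ℝ) < ((s : ℕ).factorial : ℝ) := by exact_mod_cast Nat.factorial_pos _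
    rw [hζ, abs_mul, abs_of_pos hf] at h2
    have h3 := le_of_mul_le_mul_left h2 hf
    rw [one_div, inv_pow, ← div_eq_mul_inv]
    exact h3
  have hmat : (Matrix.of fun i j : Fin N => D j 0 (x i)) =
      (Matrix.of fun r s : Fin N => nw x s (x r)) * (Matrix.of fun s j : Fin N => c j s) := by
    ext r j
    rw [Matrix.of_apply, hc j r r.2, Matrix.mul_apply,
      ← Fin.sum_univ_eq_sum_range (fun s => c j s * nw x s (x r)) N]
    exact Finset.sum_congr rfl fun s _ => mul_comm _ _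
  have hW : ∀ i j, i < j → j < N → 0 ≤ x j - x i ∧ x j - x i ≤ ξ / 5 := by
    intro i j hij hj
    have e1 := C2_lt N x hx i j hij hj
    have e2 := C2_le N x hx j (N - 1) (by omega) (by omega)
    have e3 := C2_le N x hx 0 i (by omega) (by omega)
    constructor <;> linarith
  have hT := C2_detT N x (ξ / 5) hW
  have hE := C2_detE N (Matrix.of fun s j : Fin N => c j s) M (fun s => (1 / (ξ / 2)) ^ s)
    (fun s j => hcb s j)
  rw [Finset.prod_pow_eq_pow_sum, Finset.sum_range_id] at hE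
  rw [hmat, Matrix.det_mul, abs_mul]
  have hpow : (ξ / 5) ^ (N * (N - 1) / 2) * (1 / (ξ / 2)) ^ (N * (N - 1) / 2) =
      (2 / 5) ^ (N * (N - 1) / 2) := by
    rw [← mul_pow]
    congr 1
    field_simp
  calc |(Matrix.of fun r s : Fin N => nw x s (x r)).det| *
        |(Matrix.of fun s j : Fin N => c j s).det| ≤
        (ξ / 5) ^ (N * (N - 1) / 2) * ((N.factorial : ℝ) * M ^ N *
          (1 / (ξ / 2)) ^ (N * (N - 1) / 2)) :=
        mul_le_mul hT hE (abs_nonneg _) (by positivity)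
    _ = (N.factorial : ℝ) * M ^ N * ((ξ / 5) ^ (N * (N - 1) / 2) *
          (1 / (ξ / 2)) ^ (N * (N - 1) / 2)) := by ring
    _ = _ := by rw [hpow]

end PR9
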