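import Pool.Agent.LibPR9.Defs

set_option autoImplicit false
open Filter Topology Polynomial Finset
open Pool.Agent.LibTri77 Pool.Agent.LibTri68P

namespace PR9

/-- the entries of the transition matrix -/
noncomputable def C3_w {K A B : ℕ} (P : ℝ[X]) (c' c : Idx K A B) : ℝ :=
  ((c.1.1 : ℕ).choose (c'.1.1 : ℕ) : ℝ) *
    (X ^ (c.1.2 : ℕ) * P ^ ((c.1.1 : ℕ) - (c'.1.1 : ℕ))).coeff (c'.1.2 : ℕ)

theorem C3_deg (K : ℕ) (P : ℝ[X]) (hP : P.natDegree ≤ K) (a n : ℕ) :
    (X ^ a * P ^ n).natDegree ≤ a + K * n := by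
  refine natDegree_mul_le.trans ?_
  have h1 : (X ^ a : ℝ[X]).natDegree ≤ a := natDegree_X_pow_le a
  have h2 : (P ^ n).natDegree ≤ n * P.natDegree := natDegree_pow_le
  have h3 : n * P.natDegree ≤ K * n := by
    rw [mul_comm K n]
    exact Nat.mul_le_mul_left n hP
  omega

theorem C3_sum {K A B : ℕ} (P : ℝ[X]) (hP : P.natDegree ≤ K) (x f : ℝ) (c : Idx K A B) :
    ∑ c' : Idx K A B, (x ^ (c'.1.2 : ℕ) * f ^ (c'.1.1 : ℕ)) * C3_w P c' c =
      x ^ (c.1.2 : ℕ) * (f + P.eval x) ^ (c.1.1 : ℕ) := by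
  obtain ⟨⟨b, a⟩, hc⟩ := c
  simp only at hc
  set F : ℕ → ℕ → ℝ := fun b' a' => (x ^ a' * f ^ b') * (((b : ℕ).choose b' : ℝ) *
    (X ^ (a : ℕ) * P ^ ((b : ℕ) - b')).coeff a') with hF
  have h1 : ∑ c' : Idx K A B, (x ^ (c'.1.2 : ℕ) * f ^ (c'.1.1 : ℕ)) *
      C3_w P c' (⟨(b, a), hc⟩ : Idx K A B) = ∑ c' : Idx K A B, F (c'.1.1 : ℕ) (c'.1.2 : ℕ) := by
    refine Finset.sum_congr rfl fun c' _ => ?_
    simp only [hF, C3_w]
  have h2 : ∑ c' : Idx K A B, F (c'.1.1 : ℕ) (c'.1.2 : ℕ) =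
      ∑ c' : Fin B × Fin A, F (c'.1 : ℕ) (c'.2 : ℕ) := by
    have h3 := Finset.sum_subtype_of_mem (s := (Finset.univ : Finset (Fin B × Fin A)).filter
      (fun c : Fin B × Fin A => (c.2 : ℕ) + K * (c.1 : ℕ) < A))
      (p := fun c : Fin B × Fin A => (c.2 : ℕ) + K * (c.1 : ℕ) < A)
      (fun c : Fin B × Fin A => F (c.1 : ℕ) (c.2 : ℕ)) (fun x hx => (Finset.mem_filter.1 hx).2)
    have h4 : ∑ c' ∈ (Finset.univ : Finset (Fin B × Fin A)).filter
        (fun c : Fin B × Fin A => (c.2 : ℕ) + K * (c.1 : ℕ) < A), F (c'.1 : ℕ) (c'.2 : ℕ) =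
        ∑ c' : Fin B × Fin A, F (c'.1 : ℕ) (c'.2 : ℕ) := by
      refine Finset.sum_subset (Finset.filter_subset _ _) ?_
      rintro ⟨b', a'⟩ _ hn
      simp only [Finset.mem_filter, Finset.mem_univ, true_and] at hn
      simp only [hF]
      rcases Nat.lt_or_ge (b : ℕ) (b' : ℕ) with hb | hb
      · rw [Nat.choose_eq_zero_of_lt hb]
        simp
      · have hd := C3_deg K P hP (a : ℕ) ((b : ℕ) - (b' : ℕ))
        have hlt : (X ^ (a : ℕ) * P ^ ((b : ℕ) - (b' : ℕ))).natDegree < (a' : ℕ) := by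
          refine lt_of_le_of_lt hd ?_
          have : K * ((b : ℕ) - (b' : ℕ)) + K * (b' : ℕ) = K * (b : ℕ) := by
            rw [← Nat.mul_add, Nat.sub_add_cancel hb]
          omega
        rw [coeff_eq_zero_of_natDegree_lt hlt]
        simp
    rw [← h4, ← h3]
    refine Finset.sum_congr ?_ fun _ _ => rfl
    ext c'
    simp [Finset.mem_subtype, c'.2]
  rw [h1, h2, Fintype.sum_prod_type]
  have h5 : ∀ b' : Fin B, ∑ a' : Fin A, F (b' : ℕ) (a' : ℕ) =
      f ^ (b' : ℕ) * (((b : ℕ).choose (b' : ℕ) : ℝ) *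
        (x ^ (a : ℕ) * (P.eval x) ^ ((b : ℕ) - (b' : ℕ)))) := by
    intro b'
    rw [Fin.sum_univ_eq_sum_range (fun a' => F (b' : ℕ) a') A]
    simp only [hF]
    have hd := C3_deg K P hP (a : ℕ) ((b : ℕ) - (b' : ℕ))
    have hle : K * ((b : ℕ) - (b' : ℕ)) ≤ K * (b : ℕ) := Nat.mul_le_mul_left K (Nat.sub_le _ _)
    have he := eval_eq_sum_range' (p := X ^ (a : ℕ) * P ^ ((b : ℕ) - (b' : ℕ)))
      (n := A) (by omega) x
    have he2 : (X ^ (a : ℕ) * P ^ ((b : ℕ) - (b' : ℕ))).eval x =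
        x ^ (a : ℕ) * (P.eval x) ^ ((b : ℕ) - (b' : ℕ)) := by
      simp
    rw [← he2, he, Finset.mul_sum, Finset.mul_sum]
    refine Finset.sum_congr rfl fun a' _ => ?_
    ring
  rw [Finset.sum_congr rfl fun b' _ => h5 b']
  rw [Fin.sum_univ_eq_sum_range (fun b' => f ^ b' * (((b : ℕ).choose b' : ℝ) *
        (x ^ (a : ℕ) * (P.eval x) ^ ((b : ℕ) - b')))) B]
  have hbB : (b : ℕ) + 1 ≤ B := b.2
  have h6 : ∑ b' ∈ range ((b : ℕ) + 1), f ^ b' * (((b : ℕ).choose b' : ℝ) *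
        (x ^ (a : ℕ) * (P.eval x) ^ ((b : ℕ) - b'))) =
      ∑ b' ∈ range B, f ^ b' * (((b : ℕ).choose b' : ℝ) *
        (x ^ (a : ℕ) * (P.eval x) ^ ((b : ℕ) - b'))) := by
    refine Finset.sum_subset (Finset.range_mono hbB) ?_
    intro b' _ hn
    rw [Finset.mem_range, not_lt] at hn
    rw [Nat.choose_eq_zero_of_lt (by omega)]
    simp
  rw [← h6, add_pow, Finset.mul_sum]
  refine Finset.sum_congr rfl fun b' _ => ?_
  ring

theorem C3_det {K A B N : ℕ} (e : Fin N ≃ Idx K A B) (P : ℝ[X]) :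
    (Matrix.of fun i j => C3_w P (e i) (e j) : Matrix (Fin N) (Fin N) ℝ).det = 1 := by
  set W : Matrix (Fin N) (Fin N) ℝ := Matrix.of fun i j => C3_w P (e i) (e j) with hW
  set g : Fin N → Fin B := fun i => (e i).1.1 with hg
  have hT : W.BlockTriangular g := by
    intro i j hij
    simp only [hW, Matrix.of_apply, C3_w]
    rw [Nat.choose_eq_zero_of_lt (by exact hij)]
    simp
  rw [hT.det_fintype]
  refine Finset.prod_eq_one fun k _ => ?_
  have h1 : W.toSquareBlock g k = 1 := by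
    ext ⟨i, hi⟩ ⟨j, hj⟩
    rw [Matrix.toSquareBlock_def]
    simp only [hW, Matrix.of_apply, C3_w]
    have hb : ((e j).1.1 : ℕ) = ((e i).1.1 : ℕ) := by
      have : g j = g i := hj.trans hi.symm
      simp only [hg] at this
      rw [this]
    rw [hb, Nat.choose_self, Nat.sub_self, pow_zero, mul_one, Nat.cast_one, one_mul, coeff_X_pow]
    by_cases hij : i = j
    · subst hij
      simp
    · have hne : ¬ ((e i).1.2 : ℕ) = ((e j).1.2 : ℕ) := by
        intro hcon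
        apply hij
        apply e.injective
        apply Subtype.ext
        apply Prod.ext
        · exact Fin.ext hb.symm
        · exact Fin.ext hcon
      rw [if_neg hne, Matrix.one_apply_ne]
      intro hcon
      exact hij (congrArg Subtype.val hcon)
  rw [h1, Matrix.det_one]

/-- ROW C3. The determinant does not depend on `P`.
PLAN. `x^a (f + P)^b = ∑_{b' ≤ b} binom(b, b') x^a P^(b-b') f^b'` and `x^a P^(b-b')` is a combination of `x^a'`,
`a' ≤ a + K (b - b')`, so `a' + K b' ≤ a + K b < A`: `(b', a')` is in `Idx`. So `Mo e x (f + P) = Mo e x f * W`,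
`W ((b', a'), (b, a)) = binom(b, b') (X^a P^(b-b')).coeff a'` (`0` for `b' > b`), which is the identity for `b' = b`:
`W` is block triangular with respect to `b` with identity blocks, `det W = 1` (`Matrix.BlockTriangular.det_fintype`, or
`Matrix.det_of_upperTriangular` for a linear order of the indices by `b` first). -/
theorem det_unip {K A B N : ℕ} (e : Fin N ≃ Idx K A B) (x f : ℕ → ℝ) (P : ℝ[X])
    (hP : P.natDegree ≤ K) :
    (Mo e x (fun i => f i + P.eval (x i))).det = (Mo e x f).det := by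
  have h1 : Mo e x (fun i => f i + P.eval (x i)) =
      Mo e x f * (Matrix.of fun i j => C3_w P (e i) (e j) : Matrix (Fin N) (Fin N) ℝ) := by
    ext i j
    rw [Matrix.mul_apply]
    simp only [Mo, Matrix.of_apply]
    rw [← C3_sum P hP (x i) (f i) (e j)]
    exact (Equiv.sum_comp e (fun c' => (x i ^ (c'.1.2 : ℕ) * f i ^ (c'.1.1 : ℕ)) *
      C3_w P c' (e j))).symm
  rw [h1, Matrix.det_mul, C3_det, mul_one]

end PR9
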