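import Pool.Agent.LibPR9.Defs

set_option autoImplicit false
open Filter Topology Polynomial Finset
open Pool.Agent.LibTri77 Pool.Agent.LibTri68P

namespace PR9

/-- clearing a power -/
theorem C4_pow (q : ℕ) (x : ℝ) (j : ℤ) (h : (q : ℝ) * x = j) (A a : ℕ) (ha : a ≤ A) :
    (q : ℝ) ^ A * x ^ a = (((q : ℤ) ^ (A - a) * j ^ a : ℤ) : ℝ) := by
  push_cast
  rw [← h, mul_pow]
  have : (q : ℝ) ^ A = (q : ℝ) ^ (A - a) * (q : ℝ) ^ a := by
    rw [← pow_add, Nat.sub_add_cancel ha]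
  rw [this]
  ring

/-- ROW C4 (see `det_int` in LibTri68P/P15.lean). Row `i` times `q_i^A d_i^B` has integer entries
(`q^A x^a = q^(A-a) (q x)^a`, `a < A`, `b < B`): `∏ (q_i^A d_i^B) |det|` is a nonzero integer, and
`q_i^A d_i^B ≤ Q^A H^B`. -/
theorem det_low {K A B N : ℕ} (e : Fin N ≃ Idx K A B) (Q : ℕ) (H : ℝ) (x y : ℕ → ℝ)
    (hx : ∀ i, i < N → ∃ q : ℕ, 1 ≤ q ∧ q ≤ Q ∧ ∃ j : ℤ, (q : ℝ) * x i = j)
    (hy : ∀ i, i < N → ∃ d : ℕ, 1 ≤ d ∧ (d : ℝ) ≤ H ∧ ∃ c : ℤ, (d : ℝ) * y i = c)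
    (hne : (Mo e x y).det ≠ 0) :
    1 ≤ ((Q : ℝ) ^ A * H ^ B) ^ N * |(Mo e x y).det| := by
  choose q hq1 hqQ j hj using fun i : Fin N => hx i i.2
  choose d hd1 hdH c hc using fun i : Fin N => hy i i.2
  set Z : Matrix (Fin N) (Fin N) ℤ := Matrix.of fun r s =>
    ((q r : ℤ) ^ (A - ((e s).1.2 : ℕ)) * j r ^ ((e s).1.2 : ℕ)) *
      ((d r : ℤ) ^ (B - ((e s).1.1 : ℕ)) * c r ^ ((e s).1.1 : ℕ)) with hZ
  have h1 : (Matrix.of fun r s => ((q r : ℝ) ^ A * (d r : ℝ) ^ B) * (Mo e x y) r s :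
      Matrix (Fin N) (Fin N) ℝ) = Z.map (Int.castRingHom ℝ) := by
    ext r s
    simp only [Matrix.of_apply, Matrix.map_apply, hZ, Mo, eq_intCast]
    rw [Int.cast_mul, ← C4_pow (q r) (x r) (j r) (hj r) A _ (e s).1.2.2.le,
      ← C4_pow (d r) (y r) (c r) (hc r) B _ (e s).1.1.2.le]
    ring
  have h2 := Matrix.det_mul_column (fun r : Fin N => (q r : ℝ) ^ A * (d r : ℝ) ^ B) (Mo e x y)
  rw [h1, ← RingHom.mapMatrix_apply, ← RingHom.map_det] at h2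
  have hqpos : ∀ r, (0 : ℝ) < q r := fun r => by exact_mod_cast (by have := hq1 r; omega : 0 < q r)
  have hdpos : ∀ r, (0 : ℝ) < d r := fun r => by exact_mod_cast (by have := hd1 r; omega : 0 < d r)
  have hpos : ∀ r, (0 : ℝ) < (q r : ℝ) ^ A * (d r : ℝ) ^ B := fun r =>
    mul_pos (pow_pos (hqpos r) _) (pow_pos (hdpos r) _)
  have hprod : (0 : ℝ) < ∏ r, ((q r : ℝ) ^ A * (d r : ℝ) ^ B) := Finset.prod_pos fun r _ => hpos r
  have h3 : Z.det ≠ 0 := by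
    intro h0
    rw [h0, map_zero] at h2
    rcases mul_eq_zero.1 h2.symm with h | h
    · exact hprod.ne' h
    · exact hne h
  have h4 : (1 : ℝ) ≤ |((Int.castRingHom ℝ) Z.det)| := by
    have := Int.one_le_abs h3
    simp only [eq_intCast]
    exact_mod_cast this
  rw [h2, abs_mul, abs_of_pos hprod] at h4
  refine h4.trans (mul_le_mul_of_nonneg_right ?_ (abs_nonneg _))
  calc ∏ r, ((q r : ℝ) ^ A * (d r : ℝ) ^ B) ≤ ∏ _r : Fin N, ((Q : ℝ) ^ A * H ^ B) := by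
        refine Finset.prod_le_prod (fun r _ => (hpos r).le) (fun r _ => ?_)
        refine mul_le_mul ?_ ?_ (pow_nonneg (hdpos r).le _) (by positivity)
        · exact pow_le_pow_left₀ (hqpos r).le (by exact_mod_cast hqQ r) _
        · exact pow_le_pow_left₀ (hdpos r).le (hdH r) _
    _ = ((Q : ℝ) ^ A * H ^ B) ^ N := by simp

end PR9
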