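import Mathlib

set_option autoImplicit false
open Filter Topology Polynomial Finset

namespace PR9

/-- ROW C5. Rank dichotomy. The matrix `X × Fin N`, entries `φ j x`. If its columns are linearly dependent: first case
(`Fintype.not_linearIndependent_iff` for the vectors `fun x : X => φ j x`). Otherwise its rank is `N`, so `N` of the rows are
linearly independent (row rank = column rank; `Matrix.rank`, or: the vectors `r x = (φ j x)_j ∈ ℝ^N`, `x ∈ X`, span `ℝ^N`, since a
vector `c` orthogonal to all of them is zero; `exists_linearIndependent`-type lemmas give a basis among them), distinct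
points; sort them increasingly (`Finset.orderEmbOfFin`): a permutation of the rows does not change `det ≠ 0`
(`Matrix.det_permute`). `N = 0`: second case (`det` of the empty matrix is `1`). -/
theorem dich (N : ℕ) (X : Finset ℝ) (φ : Fin N → ℝ → ℝ) :
    (∃ c : Fin N → ℝ, c ≠ 0 ∧ ∀ x ∈ X, ∑ j, c j * φ j x = 0) ∨
    ∃ x : ℕ → ℝ, (∀ i, i + 1 < N → x i < x (i + 1)) ∧ (∀ i, i < N → x i ∈ X) ∧
      (Matrix.of fun i j : Fin N => φ j (x i)).det ≠ 0 := by
  classical
  let v : X → (Fin N → ℝ) := fun x j => φ j x
  by_cases hS : Submodule.span ℝ (Set.range v) = ⊤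
  · right
    obtain ⟨κ, a, ha, hspan, hli⟩ := exists_linearIndependent' ℝ v
    have : Finite κ := Finite.of_injective a ha
    have : Fintype κ := Fintype.ofFinite κ
    have hcard : Fintype.card κ = N := by
      have h1 := finrank_span_eq_card hli
      rw [hspan, hS, finrank_top, Module.finrank_fintype_fun_eq_card, Fintype.card_fin] at h1
      exact h1.symm
    have hinj : Function.Injective fun k : κ => ((a k : X) : ℝ) :=
      Subtype.val_injective.comp ha
    let T : Finset ℝ := (univ : Finset κ).image fun k => ((a k : X) : ℝ)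
    have hT : T.card = N := by
      rw [Finset.card_image_of_injective _ hinj, Finset.card_univ, hcard]
    let s : Fin N ↪o ℝ := T.orderEmbOfFin hT
    have hs : ∀ i, ∃ k : κ, ((a k : X) : ℝ) = s i := by
      intro i
      have h1 := T.orderEmbOfFin_mem hT i
      obtain ⟨k, _, hk⟩ := Finset.mem_image.1 h1
      exact ⟨k, hk⟩
    choose k hk using hs
    have hkinj : Function.Injective k := by
      intro i j hij
      apply s.injective
      rw [← hk i, ← hk j, hij]
    refine ⟨fun i => if h : i < N then s ⟨i, h⟩ else 0, ?_, ?_, ?_⟩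
    · intro i hi
      have hi' : i < N := by omega
      simp only [hi, hi', dif_pos]
      apply s.strictMono
      exact Fin.mk_lt_mk.2 (Nat.lt_succ_self i)
    · intro i hi
      simp only [hi, dif_pos]
      rw [← hk ⟨i, hi⟩]
      exact (a (k ⟨i, hi⟩)).2
    · have hli2 : LinearIndependent ℝ ((v ∘ a) ∘ k) := hli.comp k hkinj
      have hM : (Matrix.of fun i j : Fin N => φ j (if h : (i : ℕ) < N then s ⟨i, h⟩ else 0)).row =
          (v ∘ a) ∘ k := by
        funext i j
        simp only [Matrix.row_apply, Matrix.of_apply, i.2, dif_pos, Function.comp, v]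
        rw [hk i]
      rw [← hM, Matrix.linearIndependent_rows_iff_isUnit, Matrix.isUnit_iff_isUnit_det] at hli2
      exact hli2.ne_zero
  · left
    obtain ⟨f, hf0, hf⟩ := Submodule.exists_le_ker_of_lt_top _ (lt_top_iff_ne_top.2 hS)
    refine ⟨fun j => f (Pi.single j 1), ?_, ?_⟩
    · intro h
      apply hf0
      apply LinearMap.pi_ext'
      intro j
      ext
      simpa using congrFun h j
    · intro x hx
      have h1 : v ⟨x, hx⟩ ∈ LinearMap.ker f := hf (Submodule.subset_span ⟨_, rfl⟩)
      rw [LinearMap.mem_ker] at h1
      have h2 : v ⟨x, hx⟩ = ∑ j, φ j x • (Pi.single j (1 : ℝ) : Fin N → ℝ) := by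
        funext i
        simp [v, Finset.sum_apply, Pi.single_apply]
      rw [h2, map_sum] at h1
      rw [← h1]
      apply Finset.sum_congr rfl
      intro j _
      rw [map_smul, smul_eq_mul, mul_comm]

end PR9
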