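import Pool.Agent.LibPR9.Defs

set_option autoImplicit false
open Filter Topology Polynomial Finset
open Pool.Agent.LibTri77 Pool.Agent.LibTri68P

namespace PR9

private theorem C6a_pow (f P : ℝ) (b B : ℕ) (hb : b < B) :
    (f + P) ^ b = ∑ β ∈ range B, (b.choose β : ℝ) * P ^ (b - β) * f ^ β := by
  rw [add_pow, ← Finset.sum_subset (Finset.range_subset_range.2 (Nat.succ_le_of_lt hb))]
  · exact Finset.sum_congr rfl fun β _ => by ring
  · intro β _ h2
    have h3 : b < β := by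
      by_contra h4
      exact h2 (Finset.mem_range.2 (by omega))
    rw [Nat.choose_eq_zero_of_lt h3, Nat.cast_zero, zero_mul, zero_mul]

/-- the coefficient of `f^β` -/
private noncomputable def C6a_q {K A B N : ℕ} (e : Fin N ≃ Idx K A B) (P : ℝ[X])
    (c : Fin N → ℝ) (β : ℕ) : ℝ[X] :=
  ∑ j, C (c j * (((e j).1.1 : ℕ).choose β : ℝ)) * X ^ ((e j).1.2 : ℕ) * P ^ (((e j).1.1 : ℕ) - β)

private theorem C6a_deg {K A B N : ℕ} (e : Fin N ≃ Idx K A B) (P : ℝ[X]) (hP : P.natDegree ≤ K)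
    (c : Fin N → ℝ) (β : ℕ) : (C6a_q e P c β).natDegree ≤ A := by
  refine Polynomial.natDegree_sum_le_of_forall_le _ _ fun j _ => ?_
  have h1 : ((e j).1.2 : ℕ) + K * ((e j).1.1 : ℕ) < A := (e j).2
  have h2 : (C (c j * (((e j).1.1 : ℕ).choose β : ℝ)) * X ^ ((e j).1.2 : ℕ) : ℝ[X]).natDegree ≤
      ((e j).1.2 : ℕ) := Polynomial.natDegree_C_mul_X_pow_le _ _
  have h3 : (P ^ (((e j).1.1 : ℕ) - β)).natDegree ≤ (((e j).1.1 : ℕ) - β) * K :=
    Polynomial.natDegree_pow_le_of_le _ hP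
  have h4 : (((e j).1.1 : ℕ) - β) * K ≤ ((e j).1.1 : ℕ) * K :=
    Nat.mul_le_mul_right _ (Nat.sub_le _ _)
  refine (Polynomial.natDegree_mul_le_of_le h2 h3).trans ?_
  rw [mul_comm K] at h1
  omega

private theorem C6a_ne {K A B N : ℕ} (e : Fin N ≃ Idx K A B) (P : ℝ[X])
    (c : Fin N → ℝ) (hc : c ≠ 0) : ∃ β, β < B ∧ C6a_q e P c β ≠ 0 := by
  obtain ⟨j1, hj1⟩ := Function.ne_iff.1 hc
  have hne : (Finset.univ.filter fun j : Fin N => c j ≠ 0).Nonempty :=
    ⟨j1, Finset.mem_filter.2 ⟨Finset.mem_univ _, hj1⟩⟩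
  obtain ⟨j0, hj0, hmax⟩ := Finset.exists_max_image _ (fun j : Fin N => ((e j).1.1 : ℕ)) hne
  have hc0 : c j0 ≠ 0 := (Finset.mem_filter.1 hj0).2
  refine ⟨((e j0).1.1 : ℕ), (e j0).1.1.2, ?_⟩
  intro h0
  have h1 := congrArg (fun q : ℝ[X] => q.coeff ((e j0).1.2 : ℕ)) h0
  simp only [C6a_q, Polynomial.finset_sum_coeff, Polynomial.coeff_zero] at h1
  rw [Finset.sum_eq_single j0] at h1
  · rw [Nat.sub_self, pow_zero, mul_one, Nat.choose_self, Nat.cast_one, mul_one,
      Polynomial.coeff_C_mul_X_pow, if_pos rfl] at h1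
    exact hc0 h1
  · intro j _ hj
    by_cases hcj : c j = 0
    · rw [hcj, zero_mul, C_0, zero_mul, zero_mul, Polynomial.coeff_zero]
    have h2 : ((e j).1.1 : ℕ) ≤ ((e j0).1.1 : ℕ) :=
      hmax j (Finset.mem_filter.2 ⟨Finset.mem_univ _, hcj⟩)
    rcases Nat.lt_or_ge ((e j).1.1 : ℕ) ((e j0).1.1 : ℕ) with h3 | h3
    · rw [Nat.choose_eq_zero_of_lt h3, Nat.cast_zero, mul_zero, C_0, zero_mul, zero_mul,
        Polynomial.coeff_zero]
    · have h4 : ((e j).1.1 : ℕ) = ((e j0).1.1 : ℕ) := le_antisymm h2 h3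
      rw [h4, Nat.sub_self, pow_zero, mul_one, Polynomial.coeff_C_mul_X_pow, if_neg]
      intro h5
      apply hj
      apply e.injective
      apply Subtype.ext
      exact Prod.ext (Fin.ext h4) (Fin.ext h5.symm)
  · intro h
    exact absurd (Finset.mem_univ _) h

private theorem C6a_id {K A B N : ℕ} (e : Fin N ≃ Idx K A B) (P : ℝ[X])
    (c : Fin N → ℝ) (x f : ℝ) :
    (∑ j, c j * (x ^ ((e j).1.2 : ℕ) * (f + P.eval x) ^ ((e j).1.1 : ℕ)) : ℝ) =
      ∑ b ∈ range B, (C6a_q e P c b).eval x * f ^ b := by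
  have h : ∀ j, c j * (x ^ ((e j).1.2 : ℕ) * (f + P.eval x) ^ ((e j).1.1 : ℕ)) =
      ∑ b ∈ range B, c j * (((e j).1.1 : ℕ).choose b : ℝ) * x ^ ((e j).1.2 : ℕ) *
        P.eval x ^ (((e j).1.1 : ℕ) - b) * f ^ b := by
    intro j
    rw [C6a_pow f (P.eval x) _ B (e j).1.1.2, Finset.mul_sum, Finset.mul_sum]
    exact Finset.sum_congr rfl fun b _ => by ring
  rw [Finset.sum_congr rfl fun j _ => h j, Finset.sum_comm]
  refine Finset.sum_congr rfl fun b _ => ?_
  rw [C6a_q, Polynomial.eval_finset_sum, Finset.sum_mul]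
  refine Finset.sum_congr rfl fun j _ => ?_
  rw [Polynomial.eval_mul, Polynomial.eval_mul, Polynomial.eval_C, Polynomial.eval_pow,
    Polynomial.eval_pow, Polynomial.eval_X]

/-- ROW C6. `∑_j c_j x^a (f + P)^b` as a polynomial in `f`.
PLAN. `p β = ∑_j C (c_j binom(b_j, β)) X^(a_j) P^(b_j - β)` over the `j` with `β ≤ b_j` (mapped to `ℂ[X]`): degree
`≤ a_j + K (b_j - β) < A`. Let `β` be the largest `b_j` with `c_j ≠ 0`: `p β = ∑_{b_j = β} C (c_j) X^(a_j)`, different exponents,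
so `p β ≠ 0`. The identity is the binomial theorem (`add_pow`). -/
theorem poly_of_coeff {K A B N : ℕ} (e : Fin N ≃ Idx K A B) (P : ℝ[X]) (hP : P.natDegree ≤ K)
    (c : Fin N → ℝ) (hc : c ≠ 0) :
    ∃ p : ℕ → ℂ[X], (∀ b, b < B → (p b).natDegree ≤ A) ∧ (∃ b, b < B ∧ p b ≠ 0) ∧
      ∀ x f : ℝ, ((∑ j, c j * (x ^ ((e j).1.2 : ℕ) * (f + P.eval x) ^ ((e j).1.1 : ℕ)) : ℝ) : ℂ) =
        ∑ b ∈ range B, (p b).eval (x : ℂ) * (f : ℂ) ^ b := by
  refine ⟨fun β => (C6a_q e P c β).map Complex.ofRealHom, ?_, ?_, ?_⟩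
  · intro b _
    exact (Polynomial.natDegree_map_le).trans (C6a_deg e P hP c b)
  · obtain ⟨β, hβ, hq⟩ := C6a_ne e P c hc
    exact ⟨β, hβ, (Polynomial.map_ne_zero_iff Complex.ofRealHom.injective).2 hq⟩
  · intro x f
    have h1 : ∀ b, ((C6a_q e P c b).map Complex.ofRealHom).eval (x : ℂ) =
        (((C6a_q e P c b).eval x : ℝ) : ℂ) := by
      intro b
      have h2 := Polynomial.eval_map_apply (p := C6a_q e P c b) (f := Complex.ofRealHom) x
      exact h2
    simp only [h1]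
    rw [C6a_id e P c x f]
    push_cast
    rfl

private theorem C6b_inner (K A b : ℕ) :
    (∑ a : Fin A, if (a : ℕ) + K * b < A then 1 else 0) = A - K * b := by
  rw [Fin.sum_univ_eq_sum_range (fun a => if a + K * b < A then 1 else 0) A, ← Finset.card_filter]
  have h : (range A).filter (fun a => a + K * b < A) = range (A - K * b) := by
    ext a
    rw [mem_filter, mem_range, mem_range]
    omega
  rw [h, card_range]

private theorem C6b_card (K A B : ℕ) :
    Fintype.card (Idx K A B) = ∑ b ∈ range B, (A - K * b) := by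
  classical
  rw [Fintype.card_subtype, Finset.card_filter, Fintype.sum_prod_type,
    ← Fin.sum_univ_eq_sum_range (fun b => A - K * b) B]
  exact Finset.sum_congr rfl fun b _ => C6b_inner K A b

private theorem C6b_low (K A B : ℕ) :
    2 * (A * B) ≤ 2 * ∑ b ∈ range B, (A - K * b) + K * B * B := by
  induction B with
  | zero => simp
  | succ B ih =>
    rw [sum_range_succ]
    have h1 : A ≤ (A - K * B) + K * B := by omega
    nlinarith [Nat.zero_le K, Nat.zero_le (K * B)]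

/-- ROW C6b. `card = ∑_{b<B} (A - K b)` for `K B ≤ A`. -/
theorem card_idx (K A B : ℕ) (h : K * B ≤ A) :
    A * B ≤ 2 * Fintype.card (Idx K A B) ∧ Fintype.card (Idx K A B) ≤ A * B := by
  rw [C6b_card]
  constructor
  · have h1 := C6b_low K A B
    have h2 : K * B * B ≤ A * B := Nat.mul_le_mul_right B h
    omega
  · calc ∑ b ∈ range B, (A - K * b) ≤ ∑ _b ∈ range B, A :=
          Finset.sum_le_sum fun b _ => Nat.sub_le _ _
      _ = A * B := by rw [sum_const, card_range, smul_eq_mul, mul_comm]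

end PR9
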