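import Mathlib

set_option autoImplicit false
open Filter Topology Polynomial Finset

namespace PR9

private theorem C8_log52 : (9 / 10 : ℝ) < Real.log (5 / 2) := by
  have h1 : (9 : ℝ) < Real.log ((5 / 2) ^ 10) := by
    rw [Real.lt_log_iff_exp_lt (by positivity)]
    have h2 : Real.exp 9 = Real.exp 1 ^ 9 := by
      rw [← Real.exp_nat_mul]
      norm_num
    rw [h2]
    calc Real.exp 1 ^ 9 < 2.7182818286 ^ 9 :=
          pow_lt_pow_left₀ Real.exp_one_lt_d9 (Real.exp_pos 1).le (by norm_num)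
      _ < (5 / 2) ^ 10 := by norm_num
  rw [Real.log_pow] at h1
  push_cast at h1
  linarith

private theorem C8_log20 {x : ℝ} (hx : 20 ≤ x) : Real.log x ≤ 2 + x / 20 := by
  have h1 : Real.log 20 ≤ 3 := by
    rw [Real.log_le_iff_le_exp (by norm_num)]
    have h2 : Real.exp 3 = Real.exp 1 ^ 3 := by
      rw [← Real.exp_nat_mul]
      norm_num
    rw [h2]
    calc (20 : ℝ) ≤ 2.7182818283 ^ 3 := by norm_num
      _ ≤ Real.exp 1 ^ 3 := pow_le_pow_left₀ (by norm_num) Real.exp_one_gt_d9.le 3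
  have h3 : Real.log x = Real.log 20 + Real.log (x / 20) := by
    rw [← Real.log_mul (by norm_num) (by positivity)]
    congr 1
    ring
  have h4 := Real.log_le_sub_one_of_pos (show 0 < x / 20 by positivity)
  linarith

/-- ROW C8. The inequality of the parameters. Logarithms, divide by `N` (`N ≥ 200`): `A log Q ≤ AB/20`, `B log H ≤ AB/20`,
`B log Cf ≤ AB/20`, `log N! ≤ N log N`, `log N ≤ log (AB) ≤ AB/20` (`AB ≥ 400`), and
`(N-1)/2 log (5/2) ≥ (AB/2 - 1)/2 · 9/10 > AB/5` (`log (5/2) > 9/10`: `Real.add_one_le_exp`... or `exp(9/10) < 5/2`). -/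
theorem numeric (Cf H : ℝ) (Q A B N : ℕ) (hC : 1 ≤ Cf) (hQ : 2 ≤ Q) (hH : 1 ≤ H)
    (hB : 20 * Real.log Q ≤ B) (hB2 : 20 ≤ B) (hA : 20 * Real.log H ≤ A)
    (hA1 : 20 * Real.log Cf ≤ A) (hA2 : 20 ≤ A) (hN : A * B ≤ 2 * N) (hN2 : N ≤ A * B) :
    ((Q : ℝ) ^ A * H ^ B) ^ N *
      ((N.factorial : ℝ) * (Cf ^ B) ^ N * (2 / 5) ^ (N * (N - 1) / 2)) < 1 := by
  have hQr : (2 : ℝ) ≤ Q := by exact_mod_cast hQ
  have hQ0 : (0 : ℝ) < Q := by linarith
  have hH0 : 0 < H := by linarith
  have hC0 : 0 < Cf := by linarith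
  have hAr : (20 : ℝ) ≤ A := by exact_mod_cast hA2
  have hBr : (20 : ℝ) ≤ B := by exact_mod_cast hB2
  have hNr : (A : ℝ) * B ≤ 2 * N := by exact_mod_cast hN
  have hN2r : (N : ℝ) ≤ A * B := by exact_mod_cast hN2
  have hAB : (400 : ℝ) ≤ A * B := by nlinarith
  have hNpos : (0 : ℝ) < N := by linarith
  have hN0 : 1 ≤ N := by exact_mod_cast (by linarith : (1 : ℝ) ≤ N)
  have hf0 : (0 : ℝ) < N.factorial := by exact_mod_cast Nat.factorial_pos N
  have e0 : ((N * (N - 1) / 2 : ℕ) : ℝ) = N * (N - 1) / 2 := by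
    have h1 : 2 ∣ N * (N - 1) := by
      obtain ⟨k, hk⟩ := Nat.even_mul_pred_self N
      exact ⟨k, by omega⟩
    rw [Nat.cast_div h1 (by norm_num)]
    push_cast [Nat.cast_sub hN0]
    ring
  rw [← Real.log_neg_iff (by positivity)]
  rw [Real.log_mul (by positivity) (by positivity), Real.log_mul (by positivity) (by positivity),
    Real.log_mul (by positivity) (by positivity), Real.log_pow, Real.log_pow, Real.log_pow,
    Real.log_pow, Real.log_mul (by positivity) (by positivity), Real.log_pow, Real.log_pow, e0]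
  have hfac : Real.log (N.factorial : ℝ) ≤ N * Real.log N := by
    rw [← Real.log_pow]
    apply Real.log_le_log hf0
    exact_mod_cast Nat.factorial_le_pow N
  have hlogN : Real.log N ≤ A * B / 20 := by
    have h1 : Real.log N ≤ Real.log A + Real.log B := by
      rw [← Real.log_mul (by linarith) (by linarith)]
      exact Real.log_le_log hNpos hN2r
    have h2 := C8_log20 hAr
    have h3 := C8_log20 hBr
    nlinarith
  have h25 : Real.log (2 / 5) = -Real.log (5 / 2) := by
    rw [← Real.log_inv]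
    norm_num
  rw [h25]
  set L := Real.log (5 / 2) with hL
  have hL9 : 9 / 10 < L := C8_log52
  have t1 : (A : ℝ) * Real.log Q ≤ A * B / 20 := by nlinarith
  have t2 : (B : ℝ) * Real.log H ≤ A * B / 20 := by nlinarith
  have t3 : (B : ℝ) * Real.log Cf ≤ A * B / 20 := by nlinarith
  have t4 : (A : ℝ) * B / 5 < (N - 1) / 2 * L := by
    have h1 : ((N : ℝ) - 1) / 2 * (9 / 10) ≤ (N - 1) / 2 * L := by
      apply mul_le_mul_of_nonneg_left hL9.le
      linarith
    linarith
  have key : (A : ℝ) * Real.log Q + B * Real.log H + (Real.log N + B * Real.log Cf) -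
      (N - 1) / 2 * L < 0 := by linarith
  have key2 := mul_neg_of_pos_of_neg hNpos key
  nlinarith

end PR9
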