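import Pool.Agent.LibPR9.B5c
import Pool.Agent.LibPR9.C1
import Pool.Agent.LibPR9.C2
import Pool.Agent.LibPR9.C3
import Pool.Agent.LibPR9.C4
import Pool.Agent.LibPR9.C5
import Pool.Agent.LibPR9.C6
import Pool.Agent.LibPR9.C8

set_option autoImplicit false
open Filter Topology Polynomial Finset
open Pool.Agent.LibTri77 Pool.Agent.LibTri68P

namespace PR9

/-- ROW C9a. One block, given `A`, `B`.
PLAN. `N = card (Idx K A B)`, `e = (Fintype.equivFin _).symm`. `dich` with `φ j x = x^(a_j) (fK K x + P x)^(b_j)`. First case: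
`poly_of_coeff` and `zero_est` (constant `C`). Second case: `det_low` (`y i = fK K (x i) + P (x i)`), `det_unip`, `det_up` for the
functions `D j` of `chain_phi` (`M = Cf^B`, `Cf^b ≤ Cf^B`), `numeric`: contradiction. (`N ≥ 200 ≥ 1`.) -/
theorem block_AB (K : ℕ) (C Cf : ℝ)
    (hz : ∀ (A B : ℕ), 1 ≤ A → 2 ≤ B →
      ∀ p : ℕ → ℂ[X], (∀ b, b < B → (p b).natDegree ≤ A) → (∃ b, b < B ∧ p b ≠ 0) →
      ∀ X : Finset ℝ, (∀ x ∈ X, Real.exp (-((B : ℝ) ^ 2)) ≤ x ∧ x ≤ 1 / 2 ∧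
        ∑ b ∈ range B, (p b).eval (x : ℂ) * ((fK K x : ℝ) : ℂ) ^ b = 0) →
      (X.card : ℝ) ≤ C * (B : ℝ) ^ 2 * (A + (B : ℝ) ^ 2))
    (hCf : 1 ≤ Cf)
    (hc : ∀ a b : ℕ, ∃ D : ℕ → ℝ → ℝ,
      Chain D 0 1 ∧ (∀ t : ℝ, 0 < t → t < 1 → D 0 t = t ^ a * fK K t ^ b) ∧
      ∀ (n : ℕ) (ξ t : ℝ), 0 < ξ → ξ ≤ t → t ≤ 1 / 2 →
        |D n t| ≤ (n.factorial : ℝ) * (Cf ^ b / (ξ / 2) ^ n))
    (Q A B : ℕ) (H : ℝ) (P : ℝ[X]) (hQ : 2 ≤ Q) (hH : 1 ≤ H) (hP : P.natDegree ≤ K)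
    (hB : 20 * Real.log Q ≤ B) (hB2 : 20 ≤ B) (hA : 20 * Real.log H ≤ A)
    (hA1 : 20 * Real.log Cf ≤ A) (hA2 : 20 ≤ A) (hA3 : K * B ≤ A) (ξ : ℝ) (hξ : 0 < ξ)
    (hξ2 : 6 / 5 * ξ ≤ 1 / 2) (X : Finset ℝ)
    (hX : ∀ x ∈ X, ξ ≤ x ∧ x ≤ 6 / 5 * ξ ∧ Good K Q H P x) :
    (X.card : ℝ) ≤ C * (B : ℝ) ^ 2 * (A + (B : ℝ) ^ 2) := by
  classical
  obtain ⟨hN1, hN2⟩ := card_idx K A B hA3
  set N := Fintype.card (Idx K A B) with hNdef
  have hAB : 20 * 20 ≤ A * B := Nat.mul_le_mul hA2 hB2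
  have hNpos : 1 ≤ N := by omega
  let e : Fin N ≃ Idx K A B := (Fintype.equivFin _).symm
  have hQ0 : (0 : ℝ) < Q := by
    have : (2 : ℝ) ≤ Q := by exact_mod_cast hQ
    linarith
  rcases dich N X (fun j x => x ^ ((e j).1.2 : ℕ) * (fK K x + P.eval x) ^ ((e j).1.1 : ℕ)) with
    ⟨c, hc0, hcX⟩ | ⟨x, hx1, hx2, hdet⟩
  · obtain ⟨p, hp1, hp2, hp3⟩ := poly_of_coeff e P hP c hc0
    apply hz A B (by omega) (by omega) p hp1 hp2 X
    intro x hx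
    obtain ⟨h1, h2, hg⟩ := hX x hx
    refine ⟨?_, h2.trans hξ2, ?_⟩
    · obtain ⟨⟨q, hq1, hqQ, j, hj⟩, _⟩ := hg
      have hx0 : 0 < x := lt_of_lt_of_le hξ h1
      have hq0 : (0 : ℝ) < q := by exact_mod_cast hq1
      have hj1 : (1 : ℝ) ≤ j := by
        have h3 : (0 : ℝ) < j := by rw [← hj]; positivity
        have h4 : (0 : ℤ) < j := by exact_mod_cast h3
        exact_mod_cast h4
      have hqQ' : (q : ℝ) ≤ Q := by exact_mod_cast hqQ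
      have hxQ : 1 / (Q : ℝ) ≤ x := by
        rw [div_le_iff₀ hQ0]
        nlinarith
      refine le_trans ?_ hxQ
      have h5 : 1 / (Q : ℝ) = Real.exp (-Real.log Q) := by
        rw [Real.exp_neg, Real.exp_log hQ0, one_div]
      rw [h5, Real.exp_le_exp]
      have hB1 : (20 : ℝ) ≤ B := by exact_mod_cast hB2
      have hl : 0 ≤ Real.log Q := Real.log_nonneg (by
        have : (2 : ℝ) ≤ Q := by exact_mod_cast hQ
        linarith)
      nlinarith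
    · rw [← hp3 x (fK K x), hcX x hx]
      simp
  · exfalso
    choose D hD using hc
    have hg : ∀ i, i < N → ξ ≤ x i ∧ x i ≤ 6 / 5 * ξ ∧ Good K Q H P (x i) :=
      fun i hi => hX _ (hx2 i hi)
    have hlow := det_low e Q H x (fun i => fK K (x i) + P.eval (x i))
      (fun i hi => (hg i hi).2.2.1) (fun i hi => (hg i hi).2.2.2) hdet
    have huni := det_unip e x (fun i => fK K (x i)) P hP
    rw [huni] at hlow
    have hmat : (Matrix.of fun i j : Fin N => D ((e j).1.2 : ℕ) ((e j).1.1 : ℕ) 0 (x i)) =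
        Mo e x (fun i => fK K (x i)) := by
      ext i j
      obtain ⟨h1, h2, _⟩ := hg i i.2
      simp only [Matrix.of_apply, Mo]
      exact (hD _ _).2.1 _ (lt_of_lt_of_le hξ h1) (by linarith)
    have hup := det_up N hNpos (fun j => D ((e j).1.2 : ℕ) ((e j).1.1 : ℕ))
      (fun j => (hD _ _).1) x hx1 ξ hξ (hg 0 (by omega)).1 (hg (N - 1) (by omega)).2.1 hξ2
      (Cf ^ B) (by positivity) (by
        intro j n t h1 h2
        refine ((hD _ _).2.2 n ξ t hξ h1 h2).trans ?_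
        have h3 : Cf ^ (((e j).1.1 : Fin B) : ℕ) ≤ Cf ^ B :=
          pow_le_pow_right₀ hCf (by omega)
        gcongr)
    rw [hmat] at hup
    have hnum := numeric Cf H Q A B N hCf hQ hH hB hB2 hA hA1 hA2 hN1 hN2
    have hpos : 0 ≤ ((Q : ℝ) ^ A * H ^ B) ^ N := by positivity
    have := mul_le_mul_of_nonneg_left hup hpos
    linarith

/-- ROW C9b. Choice of `B = ⌈20 log Q⌉ + 20`, `A = ⌈20 log H⌉ + ⌈20 log Cf⌉ + K B + 20` (`log Q ≥ log 2 > 0.69`). -/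
theorem block_count (K : ℕ) (hK : 2 ≤ K) : ∃ C : ℝ, 0 < C ∧ ∀ (Q : ℕ) (H : ℝ) (P : ℝ[X]),
    2 ≤ Q → 1 ≤ H → P.natDegree ≤ K → ∀ ξ : ℝ, 0 < ξ → 6 / 5 * ξ ≤ 1 / 2 → ∀ X : Finset ℝ,
    (∀ x ∈ X, ξ ≤ x ∧ x ≤ 6 / 5 * ξ ∧ Good K Q H P x) →
    (X.card : ℝ) ≤ C * Real.log Q ^ 2 * (Real.log H + Real.log Q ^ 2) := by
  obtain ⟨C, hC, hz⟩ := zero_est K hK
  obtain ⟨Cf, hCf, hc⟩ := chain_phi K hK
  have hlCf : 0 ≤ Real.log Cf := Real.log_nonneg hCf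
  -- constants
  set c1 : ℝ := 20 * Real.log Cf + 1 with hc1
  have hc1p : 1 ≤ c1 := by rw [hc1]; linarith
  refine ⟨C * 60 ^ 2 * (3600 + 20 + 2 * (K * 60) + 4 * (c1 + 21)), by positivity, ?_⟩
  intro Q H P hQ hH hP ξ hξ hξ2 X hX
  have hQR : (2 : ℝ) ≤ Q := by exact_mod_cast hQ
  have hlog2 := Real.log_two_gt_d9
  set L := Real.log Q with hL
  have hL2 : Real.log 2 ≤ L := Real.log_le_log (by norm_num) hQR
  have hL0 : (69 : ℝ) / 100 ≤ L := by linarith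
  have hlH : 0 ≤ Real.log H := Real.log_nonneg hH
  set B := ⌈20 * L⌉₊ + 20 with hB
  set A := ⌈20 * Real.log H⌉₊ + ⌈20 * Real.log Cf⌉₊ + K * B + 20 with hA
  have hB1 : 20 * L ≤ (B : ℝ) := by
    have := Nat.le_ceil (20 * L)
    rw [hB]; push_cast; linarith
  have hBu : (B : ℝ) ≤ 60 * L := by
    have := (Nat.ceil_lt_add_one (by positivity : (0 : ℝ) ≤ 20 * L)).le
    rw [hB]; push_cast; linarith
  have h1 := Nat.le_ceil (20 * Real.log H)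
  have h2 := Nat.le_ceil (20 * Real.log Cf)
  have h3 : (0 : ℝ) ≤ K * B := by positivity
  have hA1 : 20 * Real.log H ≤ (A : ℝ) := by
    rw [hA]; push_cast
    have : (0 : ℝ) ≤ (⌈20 * Real.log Cf⌉₊ : ℝ) := by positivity
    linarith
  have hA2 : 20 * Real.log Cf ≤ (A : ℝ) := by
    rw [hA]; push_cast
    have : (0 : ℝ) ≤ (⌈20 * Real.log H⌉₊ : ℝ) := by positivity
    linarith
  have hAu : (A : ℝ) ≤ 20 * Real.log H + c1 + K * (60 * L) + 21 := by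
    have h4 := (Nat.ceil_lt_add_one (by positivity : (0 : ℝ) ≤ 20 * Real.log H)).le
    have h5 := (Nat.ceil_lt_add_one (by positivity : (0 : ℝ) ≤ 20 * Real.log Cf)).le
    have h6 : (K : ℝ) * B ≤ K * (60 * L) := by gcongr
    rw [hA, hc1]; push_cast; linarith
  have hmain := block_AB K C Cf hz hCf hc Q A B H P hQ hH hP hB1 (by omega) hA1 hA2 (by omega)
    (by omega) ξ hξ hξ2 X hX
  refine hmain.trans ?_
  have hLL : L ≤ 2 * L ^ 2 := by nlinarith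
  have hL1 : 1 ≤ 4 * L ^ 2 := by nlinarith
  have hB0 : (0 : ℝ) ≤ B := by positivity
  have hK0 : (0 : ℝ) ≤ K := by positivity
  have hBB : (B : ℝ) ^ 2 ≤ 60 ^ 2 * L ^ 2 := by
    rw [← mul_pow]
    exact pow_le_pow_left₀ hB0 hBu 2
  have hsum : (A : ℝ) + (B : ℝ) ^ 2 ≤
      (3600 + 20 + 2 * (K * 60) + 4 * (c1 + 21)) * (Real.log H + L ^ 2) := by
    have e1 : (K : ℝ) * (60 * L) ≤ 2 * (K * 60) * L ^ 2 := by
      have := mul_le_mul_of_nonneg_left hLL (by positivity : (0 : ℝ) ≤ K * 60)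
      nlinarith
    have e2 : c1 + 21 ≤ 4 * (c1 + 21) * L ^ 2 := by
      have := mul_le_mul_of_nonneg_left hL1 (by positivity : (0 : ℝ) ≤ c1 + 21)
      nlinarith
    have e3 : 0 ≤ (3600 + 2 * (K * 60) + 4 * (c1 + 21)) * Real.log H := by positivity
    have e4 : 0 ≤ 20 * L ^ 2 := by positivity
    nlinarith
  calc C * (B : ℝ) ^ 2 * (A + (B : ℝ) ^ 2)
      ≤ C * (60 ^ 2 * L ^ 2) *
        ((3600 + 20 + 2 * (K * 60) + 4 * (c1 + 21)) * (Real.log H + L ^ 2)) := by gcongr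
    _ = _ := by ring

end PR9
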