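import Pool.Agent.LibPR9.C9

set_option autoImplicit false
open Filter Topology Polynomial Finset
open Pool.Agent.LibTri77 Pool.Agent.LibTri68P

namespace PR9

/-- ROW D1a (easy). `cos (2πn(1-x) - (K-1)π/2) = cos (2πnx + (K-1)π/2) = (-1)^(K-1) cos (2πnx - (K-1)π/2)` (`n` an integer). -/
theorem fK_refl (K : ℕ) (hK : 1 ≤ K) (x : ℝ) : fK K (1 - x) = (-1) ^ (K - 1) * fK K x := by
  have hU : U K (1 - x) = (-1) ^ (K - 1) * U K x := by
    obtain ⟨L, rfl⟩ : ∃ L, K = L + 1 := ⟨K - 1, by omega⟩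
    rw [Nat.add_sub_cancel]
    unfold U
    rw [← tsum_mul_left]
    apply tsum_congr
    intro n
    unfold tm
    have e1 : 2 * Real.pi * ((n : ℝ) + 1) * (1 - x) - (((L + 1 : ℕ) : ℝ) - 1) * Real.pi / 2 =
        -((2 * Real.pi * ((n : ℝ) + 1) * x - (((L + 1 : ℕ) : ℝ) - 1) * Real.pi / 2) + L * Real.pi) +
          ((n + 1 : ℕ) : ℝ) * (2 * Real.pi) := by
      push_cast
      ring
    rw [e1, Real.cos_add_nat_mul_two_pi, Real.cos_neg, Real.cos_add_nat_mul_pi]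
    ring
  unfold fK
  rw [hU, mul_div_assoc]

/-- ROW D1b. The half interval. Every good `x > 0` is `≥ 1/Q`. The blocks `[ξ_m, 6/5 ξ_m]`, `6/5 ξ_m = (5/6)^m / 2`,
`m < M0 = ⌈8 log Q⌉` cover `[1/Q, 1/2]` (`(5/6)^M0 / 2 ≤ 1/Q`: `8 log (6/5) ≥ 1`). -/
theorem half_count (K : ℕ) (hK : 2 ≤ K) : ∃ C : ℝ, 0 < C ∧ ∀ (Q : ℕ) (H : ℝ) (P : ℝ[X]),
    2 ≤ Q → 1 ≤ H → P.natDegree ≤ K → ∀ X : Finset ℝ,
    (∀ x ∈ X, 0 < x ∧ x ≤ 1 / 2 ∧ Good K Q H P x) →
    (X.card : ℝ) ≤ C * Real.log Q ^ 3 * (Real.log H + Real.log Q ^ 2) := by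
  classical
  obtain ⟨C, hC, h⟩ := block_count K hK
  refine ⟨10 * C, by positivity, ?_⟩
  intro Q H P hQ hH hP X hX
  have hQR : (2 : ℝ) ≤ Q := by exact_mod_cast hQ
  have hQ0 : (0 : ℝ) < Q := by linarith
  have hlog2 := Real.log_two_gt_d9
  set L := Real.log Q with hL
  have hL2 : Real.log 2 ≤ L := Real.log_le_log (by norm_num) hQR
  have hL0 : (69 : ℝ) / 100 ≤ L := by linarith
  have hlH : 0 ≤ Real.log H := Real.log_nonneg hH
  set M0 := ⌈8 * L⌉₊ with hM0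
  have hM1 : 8 * L ≤ (M0 : ℝ) := Nat.le_ceil _
  have hMu : (M0 : ℝ) ≤ 10 * L := by
    have := (Nat.ceil_lt_add_one (by positivity : (0 : ℝ) ≤ 8 * L)).le
    linarith
  have hM01 : 1 ≤ M0 := Nat.one_le_iff_ne_zero.2 (Nat.ceil_pos.2 (by linarith)).ne'
  have hend : (5 / 6 : ℝ) ^ M0 / 2 ≤ 1 / Q := by
    have h1 : (5 / 6 : ℝ) ≤ Real.exp (-(1 / 8)) := by
      have := Real.add_one_le_exp (-(1 / 8 : ℝ))
      linarith
    have h2 : (5 / 6 : ℝ) ^ M0 ≤ Real.exp (-(1 / 8)) ^ M0 := pow_le_pow_left₀ (by norm_num) h1 _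
    rw [← Real.exp_nat_mul] at h2
    have h3 : Real.exp ((M0 : ℝ) * -(1 / 8)) ≤ Real.exp (-L) := by
      rw [Real.exp_le_exp]
      linarith
    have h4 : Real.exp (-L) = 1 / Q := by
      rw [Real.exp_neg, hL, Real.exp_log hQ0, one_div]
    have h5 : (0 : ℝ) < (5 / 6 : ℝ) ^ M0 := by positivity
    linarith
  set Y : ℕ → Finset ℝ := fun m =>
    X.filter (fun x => (5 / 6 : ℝ) ^ (m + 1) / 2 ≤ x ∧ x ≤ (5 / 6 : ℝ) ^ m / 2) with hY
  have hcov : X ⊆ (Finset.range M0).biUnion Y := by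
    intro x hx
    obtain ⟨h0, h12, ⟨q, hq1, hqQ, j, hj⟩, _⟩ := hX x hx
    have hq0 : (0 : ℝ) < q := by exact_mod_cast hq1
    have hj1 : (1 : ℝ) ≤ j := by
      have h3 : (0 : ℝ) < j := by rw [← hj]; positivity
      have h4 : (0 : ℤ) < j := by exact_mod_cast h3
      exact_mod_cast h4
    have hqQ' : (q : ℝ) ≤ Q := by exact_mod_cast hqQ
    have hxQ : 1 / (Q : ℝ) ≤ x := by
      rw [div_le_iff₀ hQ0]
      nlinarith
    have hex : ∃ m, (5 / 6 : ℝ) ^ m / 2 ≤ x := ⟨M0, hend.trans hxQ⟩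
    have hn := Nat.find_spec hex
    have hnle : Nat.find hex ≤ M0 := Nat.find_min' hex (hend.trans hxQ)
    rw [Finset.mem_biUnion]
    rcases Nat.eq_zero_or_pos (Nat.find hex) with hz | hz
    · refine ⟨0, Finset.mem_range.2 hM01, ?_⟩
      rw [hz] at hn
      rw [hY, Finset.mem_filter]
      refine ⟨hx, ?_, by simpa using h12⟩
      norm_num at hn ⊢
      linarith
    · obtain ⟨m, hm⟩ : ∃ m, Nat.find hex = m + 1 := ⟨Nat.find hex - 1, by omega⟩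
      refine ⟨m, Finset.mem_range.2 (by omega), ?_⟩
      rw [hY, Finset.mem_filter]
      rw [hm] at hn
      refine ⟨hx, hn, ?_⟩
      have := Nat.find_min hex (m := m) (by omega)
      exact (not_le.1 this).le
  have hblock : ∀ m, ((Y m).card : ℝ) ≤ C * L ^ 2 * (Real.log H + L ^ 2) := by
    intro m
    have hp : (0 : ℝ) < (5 / 6 : ℝ) ^ (m + 1) := by positivity
    have hp1 : (5 / 6 : ℝ) ^ m ≤ 1 := pow_le_one₀ (by norm_num) (by norm_num)
    have e1 : 6 / 5 * ((5 / 6 : ℝ) ^ (m + 1) / 2) = (5 / 6 : ℝ) ^ m / 2 := by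
      rw [pow_succ]
      ring
    apply h Q H P hQ hH hP ((5 / 6 : ℝ) ^ (m + 1) / 2) (by positivity) (by rw [e1]; linarith)
    intro x hx
    rw [hY, Finset.mem_filter] at hx
    exact ⟨hx.2.1, by rw [e1]; exact hx.2.2, (hX x hx.1).2.2⟩
  have hc1 : (X.card : ℝ) ≤ ∑ m ∈ Finset.range M0, ((Y m).card : ℝ) := by
    have := (Finset.card_le_card hcov).trans (Finset.card_biUnion_le)
    exact_mod_cast this
  have hc2 : ∑ m ∈ Finset.range M0, ((Y m).card : ℝ) ≤ M0 * (C * L ^ 2 * (Real.log H + L ^ 2)) := by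
    refine (Finset.sum_le_sum (fun m _ => hblock m)).trans ?_
    simp
  have hpos : 0 ≤ C * L ^ 2 * (Real.log H + L ^ 2) := by positivity
  calc (X.card : ℝ) ≤ M0 * (C * L ^ 2 * (Real.log H + L ^ 2)) := hc1.trans hc2
    _ ≤ (10 * L) * (C * L ^ 2 * (Real.log H + L ^ 2)) := mul_le_mul_of_nonneg_right hMu hpos
    _ = _ := by ring

end PR9
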