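import Pool.Agent.LibPR9.D1

set_option autoImplicit false
open Filter Topology Polynomial Finset
open Pool.Agent.LibTri77 Pool.Agent.LibTri68P

namespace PR9

/-- ROW D2. Main theorem. The set is finite (denominator `≤ Q`, in `(0,1)`); split it at `1/2`; the part `x > 1/2` is mapped to
`(0, 1/2)` by `x ↦ 1 - x` (`fK_refl`, polynomial `(-1)^(K-1) P(1 - X)`: `P.comp (1 - X)`, degree `≤ K`). Finset images in `ℝ`. -/
theorem main (K : ℕ) (hK : 2 ≤ K) : ∃ C : ℝ, ∀ (Q : ℕ) (H : ℝ) (P : ℝ[X]), 2 ≤ Q → 1 ≤ H →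
    P.natDegree ≤ K →
    ((({x : ℚ | 0 < x ∧ x < 1 ∧ x.den ≤ Q ∧ ∃ d : ℕ, 1 ≤ d ∧ (d : ℝ) ≤ H ∧
      ∃ c : ℤ, (d : ℝ) * (U K (x : ℝ) / Real.pi ^ K + P.eval (x : ℝ)) = c}).ncard : ℕ) : ℝ) ≤
        C * Real.log Q ^ 3 * (Real.log H + Real.log Q ^ 2) := by
  classical
  obtain ⟨C₀, hC, h⟩ := half_count K hK
  refine ⟨2 * C₀, ?_⟩
  intro Q H P hQ hH hP
  set P₂ : ℝ[X] := C ((-1 : ℝ) ^ (K - 1)) * P.comp (1 - X) with hP₂
  have hP₂d : P₂.natDegree ≤ K := by
    refine (natDegree_C_mul_le _ _).trans ?_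
    rw [natDegree_comp]
    have : (1 - X : ℝ[X]).natDegree ≤ 1 := by
      refine (natDegree_sub_le _ _).trans ?_
      simp
    calc P.natDegree * (1 - X : ℝ[X]).natDegree ≤ K * 1 := Nat.mul_le_mul hP this
      _ = K := mul_one K
  have hP₂e : ∀ x : ℝ, P₂.eval (1 - x) = (-1) ^ (K - 1) * P.eval x := by
    intro x
    rw [hP₂, eval_mul, eval_C, eval_comp]
    simp
  set S : Set ℚ := {x : ℚ | 0 < x ∧ x < 1 ∧ x.den ≤ Q ∧ ∃ d : ℕ, 1 ≤ d ∧ (d : ℝ) ≤ H ∧
      ∃ c : ℤ, (d : ℝ) * (U K (x : ℝ) / Real.pi ^ K + P.eval (x : ℝ)) = c} with hS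
  have hfin : S.Finite := by
    apply Set.Finite.subset
      (((Finset.range (Q + 1)) ×ˢ (Finset.range (Q + 1))).image
        (fun p : ℕ × ℕ => ((p.1 : ℚ) / (p.2 : ℚ)))).finite_toSet
    intro x hx
    obtain ⟨h0, h1, hd, _⟩ := hx
    rw [Finset.coe_image]
    have hn0 : 0 < x.num := Rat.num_pos.2 h0
    refine ⟨(x.num.toNat, x.den), ?_, ?_⟩
    · have h2 : x.num < x.den := by
        have h3 : x * x.den = x.num := Rat.mul_den_eq_num x
        have h4 : (0 : ℚ) < x.den := by exact_mod_cast x.den_pos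
        have h5 : ((x.num : ℤ) : ℚ) < ((x.den : ℕ) : ℚ) := by
          rw [← h3]
          nlinarith
        exact_mod_cast h5
      simp only [Finset.coe_product, Finset.coe_range, Set.mem_prod, Set.mem_Iio]
      omega
    · have h2 : ((x.num.toNat : ℕ) : ℚ) = (x.num : ℚ) := by
        have h3 : ((x.num.toNat : ℕ) : ℤ) = x.num := Int.toNat_of_nonneg hn0.le
        exact_mod_cast h3
      simp only [h2]
      exact Rat.num_div_den x
  rw [Set.ncard_eq_toFinset_card S hfin]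
  set T := hfin.toFinset with hT
  have hTm : ∀ x, x ∈ T ↔ x ∈ S := fun x => hfin.mem_toFinset
  have hden : ∀ x : ℚ, (x.den : ℝ) * (x : ℝ) = (x.num : ℝ) := by
    intro x
    have h3 : x * x.den = x.num := Rat.mul_den_eq_num x
    have h4 : ((x * x.den : ℚ) : ℝ) = ((x.num : ℚ) : ℝ) := by rw [h3]
    push_cast at h4
    linarith
  have hsplit : T.card = (T.filter (fun x => x ≤ 1 / 2)).card +
      (T.filter (fun x => ¬ x ≤ 1 / 2)).card :=
    (Finset.card_filter_add_card_filter_not (fun x : ℚ => x ≤ 1 / 2)).symm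
  have h1 : ((T.filter (fun x => x ≤ 1 / 2)).card : ℝ) ≤
      C₀ * Real.log Q ^ 3 * (Real.log H + Real.log Q ^ 2) := by
    have hinj : Function.Injective (fun x : ℚ => (x : ℝ)) := Rat.cast_injective
    rw [← Finset.card_image_of_injective _ hinj]
    apply h Q H P hQ hH hP
    intro y hy
    rw [Finset.mem_image] at hy
    obtain ⟨x, hx, rfl⟩ := hy
    rw [Finset.mem_filter, hTm] at hx
    obtain ⟨⟨h0, h1, hd, d, hd1, hd2, c, hc⟩, h12⟩ := hx
    refine ⟨by exact_mod_cast h0, ?_, ⟨x.den, x.den_pos, hd, x.num, hden x⟩,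
      d, hd1, hd2, c, hc⟩
    have : ((x : ℚ) : ℝ) ≤ ((1 / 2 : ℚ) : ℝ) := by exact_mod_cast h12
    simpa using this
  have h2 : ((T.filter (fun x => ¬ x ≤ 1 / 2)).card : ℝ) ≤
      C₀ * Real.log Q ^ 3 * (Real.log H + Real.log Q ^ 2) := by
    have hinj : Function.Injective (fun x : ℚ => 1 - (x : ℝ)) := by
      intro x y hxy
      have : (x : ℝ) = (y : ℝ) := by
        simp only at hxy
        linarith
      exact_mod_cast this
    rw [← Finset.card_image_of_injective _ hinj]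
    apply h Q H P₂ hQ hH hP₂d
    intro y hy
    rw [Finset.mem_image] at hy
    obtain ⟨x, hx, rfl⟩ := hy
    rw [Finset.mem_filter, hTm] at hx
    obtain ⟨⟨h0, h1, hd, d, hd1, hd2, c, hc⟩, h12⟩ := hx
    have hx1 : (x : ℝ) < 1 := by exact_mod_cast h1
    have hx2 : (1 / 2 : ℝ) < x := by
      have h3 : (1 / 2 : ℚ) < x := not_le.1 h12
      have h4 : ((1 / 2 : ℚ) : ℝ) < (x : ℝ) := by exact_mod_cast h3
      simpa using h4
    refine ⟨by linarith, by linarith, ⟨x.den, x.den_pos, hd, (x.den : ℤ) - x.num, ?_⟩,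
      d, hd1, hd2, (-1) ^ (K - 1) * c, ?_⟩
    · have := hden x
      push_cast
      linarith
    · rw [fK_refl K (by omega), hP₂e]
      push_cast
      rw [← hc]
      unfold fK
      ring
  rw [hsplit]
  push_cast
  linarith

end PR9
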