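import Pool.Agent.LibTri68P.P10
import Pool.Agent.LibTri77.Cor

/-!
# Board PR9: rational values of the polylogarithm at the roots of unity of bounded order (MP_e47f08_nt)

NOTATION. `fK K x = U K x / π^K` (`U K` as in LibTri77; `U 3 x = - ∑ cos (2πnx)/n^3`), `cK K x^(K-1) log x` its
singular part at `0`.
-/

set_option autoImplicit false
open Filter Topology Polynomial Finset
open Pool.Agent.LibTri77 Pool.Agent.LibTri68P

namespace PR9

/-- `U K x / π^K` -/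
noncomputable def fK (K : ℕ) (x : ℝ) : ℝ := U K x / Real.pi ^ K

/-- the coefficient of `x^(K-1) log x` in `fK K x` -/
noncomputable def cK (K : ℕ) : ℝ :=
  -(2 * Real.pi) ^ (K - 1) / (((K - 1).factorial : ℝ) * Real.pi ^ K)

/-- `h` is analytic in the unit disc and `fK K x = cK K x^(K-1) log x + h x` on `(0, 1)` -/
structure Cont (K : ℕ) (h : ℂ → ℂ) : Prop where
  diff : DifferentiableOn ℂ h (Metric.ball 0 1)
  eq : ∀ x : ℝ, 0 < x → x < 1 →
    ((fK K x : ℝ) : ℂ) = (cK K : ℂ) * (x : ℂ) ^ (K - 1) * ((Real.log x : ℝ) : ℂ) + h x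

/-- the continuation of `fK K` as a function of `u = log x` -/
noncomputable def lg (K : ℕ) (h : ℂ → ℂ) (u : ℂ) : ℂ :=
  (cK K : ℂ) * Complex.exp u ^ (K - 1) * u + h (Complex.exp u)

/-- `∑_{b<B} p_b(e^u) lg(u)^b` -/
noncomputable def Fu (K : ℕ) (h : ℂ → ℂ) (B : ℕ) (p : ℕ → ℂ[X]) (u : ℂ) : ℂ :=
  ∑ b ∈ range B, (p b).eval (Complex.exp u) * lg K h u ^ b

/-- the radius of the big disc in the half plane of `u` -/
noncomputable def TB (B : ℕ) : ℝ := 100 * (B : ℝ) ^ 2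

/-- the map of the unit disc onto the disc `|u + 1/10 + T| < T` -/
noncomputable def uu (B : ℕ) (v : ℂ) : ℂ := (TB B : ℂ) * (v - 1) - 1 / 10

/-- the nodes `3/20 + i/(5A)`, `i ≤ A`, in `[3/20, 7/20]` -/
noncomputable def nd (A i : ℕ) : ℝ := 3 / 20 + (i : ℝ) / (5 * A)

/-- the pairs `(b, a)`, `b < B`, `a + K b < A`: exponents of the monomials `x^a y^b` -/
abbrev Idx (K A B : ℕ) : Type := {c : Fin B × Fin A // (c.2 : ℕ) + K * (c.1 : ℕ) < A}

/-- the matrix of the monomials `x^a y^b` -/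
noncomputable def Mo {K A B N : ℕ} (e : Fin N ≃ Idx K A B) (x y : ℕ → ℝ) :
    Matrix (Fin N) (Fin N) ℝ :=
  Matrix.of fun i j => x i ^ ((e j).1.2 : ℕ) * y i ^ ((e j).1.1 : ℕ)

/-- `x` is rational with denominator at most `Q`, `fK K x + P x` is rational with denominator at
most `H` -/
def Good (K Q : ℕ) (H : ℝ) (P : ℝ[X]) (x : ℝ) : Prop :=
  (∃ q : ℕ, 1 ≤ q ∧ q ≤ Q ∧ ∃ j : ℤ, (q : ℝ) * x = j) ∧
    ∃ d : ℕ, 1 ≤ d ∧ (d : ℝ) ≤ H ∧ ∃ c : ℤ, (d : ℝ) * (fK K x + P.eval x) = c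

end PR9
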